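import Pool.Agent.Helper54_BED.Defs

/-!
# Linear algebra of `diagonal a - W`, `W` symmetric with nonnegative entries
-/

set_option autoImplicit false
set_option linter.unusedSectionVars false

open scoped BigOperators

noncomputable section

namespace Pool.Agent.BED

open Matrix

section general

variable {X : Type*} [Fintype X] [DecidableEq X]

theorem posDef_of_real {A : Matrix X X ℝ} (hA : ∀ x y, A x y = A y x)
    (h : ∀ f : X → ℝ, f ≠ 0 → 0 < ∑ x, f x * (A *ᵥ f) x) : A.PosDef := by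
  refine Matrix.PosDef.of_dotProduct_mulVec_pos ?_ ?_
  · ext x y
    simp [Matrix.conjTranspose_apply, hA x y]
  · intro f hf
    have := h f hf
    simpa [dotProduct] using this

theorem pos_of_posDef {A : Matrix X X ℝ} (hA : A.PosDef) {f : X → ℝ} (hf : f ≠ 0) :
    0 < ∑ x, f x * (A *ᵥ f) x := by
  have := hA.dotProduct_mulVec_pos hf
  simpa [dotProduct] using this

theorem nonneg_of_posDef {A : Matrix X X ℝ} (hA : A.PosDef) (f : X → ℝ) :
    0 ≤ ∑ x, f x * (A *ᵥ f) x := by
  by_cases hf : f = 0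
  · simp [hf]
  · exact (pos_of_posDef hA hf).le

theorem symm_of_posDef {A : Matrix X X ℝ} (hA : A.PosDef) (x y : X) : A x y = A y x := by
  have := hA.isHermitian
  have h2 := congrFun (congrFun this y) x
  simpa [Matrix.conjTranspose_apply] using h2

theorem diag_sub_mulVec (a : X → ℝ) (W : Matrix X X ℝ) (f : X → ℝ) (x : X) :
    ((Matrix.diagonal a - W) *ᵥ f) x = a x * f x - ∑ y, W x y * f y := by
  rw [Matrix.sub_mulVec, Pi.sub_apply, Matrix.mulVec_diagonal]
  rfl

/-- The ground state transform. -/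
theorem doob (W : Matrix X X ℝ) (hW : ∀ x y, W x y = W y x) (a g u : X → ℝ) :
    ∑ x, (g x * u x) * ((Matrix.diagonal a - W) *ᵥ fun y => g y * u y) x =
      (1 / 2) * ∑ x, ∑ y, W x y * g x * g y * (u x - u y) ^ 2 +
        ∑ x, g x * ((Matrix.diagonal a - W) *ᵥ g) x * (u x) ^ 2 := by
  simp only [diag_sub_mulVec]
  have h1 : ∑ x, ∑ y, W x y * g x * g y * (u x - u y) ^ 2 =
      2 * ∑ x, ∑ y, W x y * g x * g y * u x ^ 2 - 2 * ∑ x, ∑ y, W x y * g x * g y * u x * u y := by
    have e1 : ∑ x, ∑ y, W x y * g x * g y * u y ^ 2 = ∑ x, ∑ y, W x y * g x * g y * u x ^ 2 := by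
      rw [Finset.sum_comm]
      refine Finset.sum_congr rfl fun x _ => Finset.sum_congr rfl fun y _ => ?_
      rw [hW y x]; ring
    have e2 : ∑ x, ∑ y, W x y * g x * g y * (u x - u y) ^ 2 =
        ∑ x, ∑ y, W x y * g x * g y * u x ^ 2 + ∑ x, ∑ y, W x y * g x * g y * u y ^ 2 -
          2 * ∑ x, ∑ y, W x y * g x * g y * u x * u y := by
      simp only [Finset.mul_sum, ← Finset.sum_add_distrib, ← Finset.sum_sub_distrib]
      refine Finset.sum_congr rfl fun x _ => Finset.sum_congr rfl fun y _ => ?_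
      ring
    rw [e2, e1]; ring
  rw [h1]
  have h2 : ∑ x, g x * u x * (a x * (g x * u x) - ∑ y, W x y * (g y * u y)) =
      ∑ x, a x * g x ^ 2 * u x ^ 2 - ∑ x, ∑ y, W x y * g x * g y * u x * u y := by
    rw [← Finset.sum_sub_distrib]
    refine Finset.sum_congr rfl fun x _ => ?_
    rw [mul_sub, Finset.mul_sum]
    congr 1
    · ring
    · refine Finset.sum_congr rfl fun y _ => ?_
      ring
  have h3 : ∑ x, g x * (a x * g x - ∑ y, W x y * g y) * u x ^ 2 =
      ∑ x, a x * g x ^ 2 * u x ^ 2 - ∑ x, ∑ y, W x y * g x * g y * u x ^ 2 := by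
    rw [← Finset.sum_sub_distrib]
    refine Finset.sum_congr rfl fun x _ => ?_
    rw [mul_sub, sub_mul, Finset.mul_sum, Finset.sum_mul]
    congr 1
    · ring
    · refine Finset.sum_congr rfl fun y _ => ?_
      ring
  rw [h2, h3]; ring

/-- A positive strict supersolution gives positive definiteness. -/
theorem posDef_of_super {W : Matrix X X ℝ} (hW : ∀ x y, W x y = W y x) (hW0 : ∀ x y, 0 ≤ W x y)
    {a g : X → ℝ} (hg : ∀ x, 0 < g x) (hA : ∀ x, 0 < ((Matrix.diagonal a - W) *ᵥ g) x) :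
    (Matrix.diagonal a - W).PosDef := by
  refine posDef_of_real (fun x y => ?_) fun f hf => ?_
  · by_cases h : x = y
    · rw [h]
    · rw [Matrix.sub_apply, Matrix.sub_apply, Matrix.diagonal_apply_ne _ h,
        Matrix.diagonal_apply_ne _ (Ne.symm h), hW x y]
  · have h := doob W hW a g (fun x => f x / g x)
    have e : (fun y => g y * (f y / g y)) = f := by
      funext y; rw [mul_div_cancel₀ _ (hg y).ne']
    have e' : ∀ y, g y * (f y / g y) = f y := fun y => congrFun e y
    simp only [e'] at h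
    rw [h]
    have h1 : 0 ≤ (1 / 2) * ∑ x, ∑ y, W x y * g x * g y * (f x / g x - f y / g y) ^ 2 := by
      refine mul_nonneg (by norm_num) (Finset.sum_nonneg fun x _ => Finset.sum_nonneg fun y _ => ?_)
      have := hW0 x y
      have := (hg x).le
      have := (hg y).le
      positivity
    obtain ⟨x, hx⟩ : ∃ x, f x ≠ 0 := Function.ne_iff.1 hf
    have h2 : 0 < ∑ x, g x * ((Matrix.diagonal a - W) *ᵥ g) x * (f x / g x) ^ 2 := by
      refine Finset.sum_pos' (fun y _ => ?_) ⟨x, Finset.mem_univ x, ?_⟩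
      · have := (hg y).le
        have := (hA y).le
        positivity
      · have := hg x
        have := hA x
        have : 0 < (f x / g x) ^ 2 := by positivity
        positivity
    linarith

/-- The maximum principle. -/
theorem nonneg_of_mulVec {W : Matrix X X ℝ} (hW0 : ∀ x y, 0 ≤ W x y) {a v : X → ℝ}
    (hA : (Matrix.diagonal a - W).PosDef) (h : ∀ x, 0 ≤ ((Matrix.diagonal a - W) *ᵥ v) x) :
    ∀ x, 0 ≤ v x := by
  -- the negative part
  set m : X → ℝ := fun x => max (-v x) 0 with hm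
  have hm0 : ∀ x, 0 ≤ m x := fun x => le_max_right _ _
  by_contra hcon
  push Not at hcon
  obtain ⟨x₀, hx₀⟩ := hcon
  have hmne : m ≠ 0 := by
    intro h0
    have : m x₀ = 0 := by rw [h0]; rfl
    have h1 : -v x₀ ≤ m x₀ := le_max_left _ _
    linarith
  have hpos := pos_of_posDef hA hmne
  have h1 : 0 ≤ ∑ x, m x * ((Matrix.diagonal a - W) *ᵥ v) x :=
    Finset.sum_nonneg fun x _ => mul_nonneg (hm0 x) (h x)
  -- `∑ m (A v) ≤ - ∑ m (A m)`
  have h2 : ∑ x, m x * ((Matrix.diagonal a - W) *ᵥ v) x ≤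
      - ∑ x, m x * ((Matrix.diagonal a - W) *ᵥ m) x := by
    rw [← Finset.sum_neg_distrib]
    refine Finset.sum_le_sum fun x _ => ?_
    rw [diag_sub_mulVec, diag_sub_mulVec]
    have e1 : m x * (a x * v x) = - (m x * (a x * m x)) := by
      rcases le_total 0 (v x) with hv | hv
      · have : m x = 0 := max_eq_right (by linarith)
        rw [this]; ring
      · have : m x = - v x := max_eq_left (by linarith)
        rw [this]; ring
    have e2 : - ∑ y, W x y * m y ≤ ∑ y, W x y * v y := by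
      rw [← Finset.sum_neg_distrib]
      refine Finset.sum_le_sum fun y _ => ?_
      have : - m y ≤ v y := by
        have : -v y ≤ m y := le_max_left _ _
        linarith
      calc - (W x y * m y) = W x y * (- m y) := by ring
        _ ≤ W x y * v y := mul_le_mul_of_nonneg_left this (hW0 x y)
    have e3 : m x * (- ∑ y, W x y * m y) ≤ m x * ∑ y, W x y * v y :=
      mul_le_mul_of_nonneg_left e2 (hm0 x)
    calc m x * (a x * v x - ∑ y, W x y * v y) = m x * (a x * v x) - m x * ∑ y, W x y * v y := by ring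
      _ ≤ - (m x * (a x * m x)) - m x * (- ∑ y, W x y * m y) := by linarith
      _ = - (m x * (a x * m x - ∑ y, W x y * m y)) := by ring
  linarith

theorem mulVec_inv {A : Matrix X X ℝ} (hA : A.PosDef) (f : X → ℝ) : A *ᵥ (A⁻¹ *ᵥ f) = f := by
  rw [Matrix.mulVec_mulVec, Matrix.mul_nonsing_inv _ ((Matrix.isUnit_iff_isUnit_det _).1 hA.isUnit),
    Matrix.one_mulVec]

theorem inv_mulVec {A : Matrix X X ℝ} (hA : A.PosDef) (f : X → ℝ) : A⁻¹ *ᵥ (A *ᵥ f) = f := by
  rw [Matrix.mulVec_mulVec, Matrix.nonsing_inv_mul _ ((Matrix.isUnit_iff_isUnit_det _).1 hA.isUnit),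
    Matrix.one_mulVec]

theorem inv_nonneg_entries {W : Matrix X X ℝ} (hW0 : ∀ x y, 0 ≤ W x y) {a : X → ℝ}
    (hA : (Matrix.diagonal a - W).PosDef) (x y : X) : 0 ≤ (Matrix.diagonal a - W)⁻¹ x y := by
  have h : ∀ z, 0 ≤ ((Matrix.diagonal a - W) *ᵥ
      ((Matrix.diagonal a - W)⁻¹ *ᵥ (Pi.single y (1 : ℝ)))) z := by
    intro z
    rw [mulVec_inv hA]
    by_cases hz : z = y
    · subst hz; simp
    · simp [hz]
  have := nonneg_of_mulVec hW0 hA h x
  simpa using this

theorem inv_symm {A : Matrix X X ℝ} (hA : A.PosDef) (x y : X) : A⁻¹ x y = A⁻¹ y x :=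
  symm_of_posDef hA.inv x y

/-- comparison: `A u ≤ A v` implies `u ≤ v` -/
theorem le_of_mulVec_le {W : Matrix X X ℝ} (hW0 : ∀ x y, 0 ≤ W x y) {a u v : X → ℝ}
    (hA : (Matrix.diagonal a - W).PosDef)
    (h : ∀ x, ((Matrix.diagonal a - W) *ᵥ u) x ≤ ((Matrix.diagonal a - W) *ᵥ v) x) (x : X) :
    u x ≤ v x := by
  have := nonneg_of_mulVec hW0 hA (v := v - u) (fun x => by
    rw [Matrix.mulVec_sub, Pi.sub_apply]; linarith [h x]) x
  simpa using this

/-- symmetry of the bilinear form -/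
theorem sum_mul_mulVec_comm {A : Matrix X X ℝ} (hA : ∀ x y, A x y = A y x) (f g : X → ℝ) :
    ∑ x, f x * (A *ᵥ g) x = ∑ x, (A *ᵥ f) x * g x := by
  simp only [Matrix.mulVec, dotProduct, Finset.mul_sum, Finset.sum_mul]
  rw [Finset.sum_comm]
  refine Finset.sum_congr rfl fun x _ => Finset.sum_congr rfl fun y _ => ?_
  rw [hA y x]; ring

end general

/-! ### The torus -/

variable {d M : ℕ} [NeZero M]

theorem adj_nonneg (x y : Tor d M) : 0 ≤ adj d M x y := by
  unfold adj
  rw [Matrix.of_apply]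
  refine Finset.sum_nonneg fun i _ => ?_
  split_ifs <;> norm_num

theorem adj_symm (x y : Tor d M) : adj d M x y = adj d M y x := by
  unfold adj
  rw [Matrix.of_apply, Matrix.of_apply]
  refine Finset.sum_congr rfl fun i _ => ?_
  have h1 : (y = x + ev i) ↔ (x = y - ev i) := by
    constructor
    · intro h; rw [h]; abel
    · intro h; rw [h]; abel
  have h2 : (y = x - ev i) ↔ (x = y + ev i) := by
    constructor
    · intro h; rw [h]; abel
    · intro h; rw [h]; abel
  simp only [h1, h2]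
  ring

theorem adj_mulVec (f : Tor d M → ℝ) (x : Tor d M) :
    ∑ y, adj d M x y * f y = ∑ i : Fin d, (f (x + ev i) + f (x - ev i)) := by
  unfold adj
  simp only [Matrix.of_apply, Finset.sum_mul, add_mul]
  rw [Finset.sum_comm]
  refine Finset.sum_congr rfl fun i _ => ?_
  rw [Finset.sum_add_distrib]
  simp

theorem AM_mulVec (z : ℝ) (V f : Tor d M → ℝ) (x : Tor d M) :
    (AM z V *ᵥ f) x = (z - V x) * f x - ∑ i : Fin d, (f (x + ev i) + f (x - ev i)) := by
  unfold AM
  rw [diag_sub_mulVec, adj_mulVec]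

theorem AM_symm (z : ℝ) (V : Tor d M → ℝ) (x y : Tor d M) : AM z V x y = AM z V y x := by
  unfold AM
  by_cases h : x = y
  · rw [h]
  · rw [Matrix.sub_apply, Matrix.sub_apply, Matrix.diagonal_apply_ne _ h,
      Matrix.diagonal_apply_ne _ (Ne.symm h), adj_symm x y]

theorem AM_sub (z h : ℝ) (V : Tor d M → ℝ) : AM (z - h) V = AM z V - h • (1 : Matrix _ _ ℝ) := by
  unfold AM
  ext x y
  by_cases hxy : x = y
  · subst hxy; simp; ring
  · simp [hxy]

theorem DD_eq (z : ℝ) (V : Tor d M → ℝ) : DD z V = GM z V *ᵥ 1 := by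
  funext x
  simp [DD, Matrix.mulVec, dotProduct]

theorem AM_DD {z : ℝ} {V : Tor d M → ℝ} (hA : (AM z V).PosDef) : AM z V *ᵥ DD z V = 1 := by
  rw [DD_eq]
  exact mulVec_inv hA 1

theorem GM_nonneg {z : ℝ} {V : Tor d M → ℝ} (hA : (AM z V).PosDef) (x y : Tor d M) :
    0 ≤ GM z V x y := inv_nonneg_entries adj_nonneg hA x y

theorem GM_symm {z : ℝ} {V : Tor d M → ℝ} (hA : (AM z V).PosDef) (x y : Tor d M) :
    GM z V x y = GM z V y x := inv_symm hA x y

/-- positive strict supersolutions -/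
theorem AM_posDef_of_super {z : ℝ} {V g : Tor d M → ℝ} (hg : ∀ x, 0 < g x)
    (hA : ∀ x, 0 < (AM z V *ᵥ g) x) : (AM z V).PosDef :=
  posDef_of_super adj_symm adj_nonneg hg hA

theorem AM_le_of {z : ℝ} {V u v : Tor d M → ℝ} (hA : (AM z V).PosDef)
    (h : ∀ x, (AM z V *ᵥ u) x ≤ (AM z V *ᵥ v) x) (x : Tor d M) : u x ≤ v x :=
  le_of_mulVec_le adj_nonneg hA h x

theorem DD_pos {z : ℝ} {V : Tor d M → ℝ} (hA : (AM z V).PosDef) (x : Tor d M) : 0 < DD z V x := by
  have h0 : ∀ y, 0 ≤ DD z V y := by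
    intro y
    exact Finset.sum_nonneg fun w _ => GM_nonneg hA y w
  rcases (h0 x).lt_or_eq with h | h
  · exact h
  · exfalso
    have h1 := congrFun (AM_DD hA) x
    rw [AM_mulVec, ← h] at h1
    simp only [Pi.one_apply, mul_zero, zero_sub] at h1
    have h2 : 0 ≤ ∑ i : Fin d, (DD z V (x + ev i) + DD z V (x - ev i)) :=
      Finset.sum_nonneg fun i _ => add_nonneg (h0 _) (h0 _)
    linarith

/-- The ground state transform on the torus, with the energy. -/
theorem AM_doob (z : ℝ) (V g u : Tor d M → ℝ) :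
    ∑ x, (g x * u x) * (AM z V *ᵥ fun y => g y * u y) x =
      ∑ x, ∑ i : Fin d, g x * g (x + ev i) * (u (x + ev i) - u x) ^ 2 +
        ∑ x, g x * (AM z V *ᵥ g) x * (u x) ^ 2 := by
  have h := doob (adj d M) adj_symm (fun x => z - V x) g u
  unfold AM
  rw [h]
  congr 1
  have h1 : ∀ x, ∑ y, adj d M x y * g x * g y * (u x - u y) ^ 2 =
      ∑ i : Fin d, (g x * g (x + ev i) * (u (x + ev i) - u x) ^ 2 +
        g x * g (x - ev i) * (u (x - ev i) - u x) ^ 2) := by
    intro x
    have := adj_mulVec (fun y => g x * g y * (u y - u x) ^ 2) x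
    rw [← this]
    refine Finset.sum_congr rfl fun y _ => ?_
    ring
  simp only [h1, Finset.sum_add_distrib]
  have h2 : ∑ x : Tor d M, ∑ i : Fin d, g x * g (x - ev i) * (u (x - ev i) - u x) ^ 2 =
      ∑ x : Tor d M, ∑ i : Fin d, g x * g (x + ev i) * (u (x + ev i) - u x) ^ 2 := by
    rw [Finset.sum_comm]
    rw [Finset.sum_comm (f := fun (x : Tor d M) (i : Fin d) =>
      g x * g (x + ev i) * (u (x + ev i) - u x) ^ 2)]
    refine Finset.sum_congr rfl fun i _ => ?_
    rw [← Equiv.sum_comp (Equiv.addRight (ev i : Tor d M))]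
    refine Finset.sum_congr rfl fun x _ => ?_
    simp only [Equiv.coe_addRight, add_sub_cancel_right]
    ring
  rw [h2]; ring

end Pool.Agent.BED
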