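import Pool.Agent.Helper54_BED.Est

/-!
# BED, module FLAT: the landscape function is flat with large probability
-/

set_option autoImplicit false

open MeasureTheory ProbabilityTheory

open scoped ENNReal NNReal BigOperators

noncomputable section

namespace Pool.Agent.BED

open Matrix

theorem one_le_growth (d : ℕ) {t : ℝ} (ht : 1 ≤ t) : 1 ≤ growth d t := by
  unfold growth
  split_ifs
  · exact Real.one_le_sqrt.2 ht
  · have := Real.log_nonneg ht
    linarith
  · exact le_rfl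

theorem ten_le_pow {t : ℝ} (ht : 1 ≤ t) :
    10 * t ≤ 0.98 * 1.07 ^ ⌈40 * (1 + Real.log t)⌉₊ := by
  have hlog := Real.log_nonneg ht
  have h1 : (0.065 : ℝ) ≤ Real.log 1.07 := by
    have := Real.one_sub_inv_le_log_of_pos (x := 1.07) (by norm_num)
    norm_num at this ⊢
    linarith
  have h2 : 2.6 + Real.log t ≤ (⌈40 * (1 + Real.log t)⌉₊ : ℝ) * Real.log 1.07 := by
    have h3 := Nat.le_ceil (40 * (1 + Real.log t))
    have h4 : 40 * (1 + Real.log t) * 0.065 ≤ (⌈40 * (1 + Real.log t)⌉₊ : ℝ) * Real.log 1.07 :=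
      mul_le_mul h3 h1 (by norm_num) (by positivity)
    linarith
  have h5 : (1.07 : ℝ) ^ ⌈40 * (1 + Real.log t)⌉₊ =
      Real.exp ((⌈40 * (1 + Real.log t)⌉₊ : ℝ) * Real.log 1.07) := by
    rw [Real.exp_nat_mul, Real.exp_log (by norm_num)]
  have h6 : Real.exp (2.6 + Real.log t) ≤ (1.07 : ℝ) ^ ⌈40 * (1 + Real.log t)⌉₊ := by
    rw [h5]; exact Real.exp_le_exp.2 h2
  have h7 : (10.5 : ℝ) ≤ Real.exp 2.6 := by
    have e1 : Real.exp 2.6 = Real.exp 1 * Real.exp 1 * Real.exp 0.6 := by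
      rw [← Real.exp_add, ← Real.exp_add]; norm_num
    have e2 := Real.exp_one_gt_d9
    have e3 : (1.6 : ℝ) ≤ Real.exp 0.6 := by
      have := Real.add_one_le_exp (0.6 : ℝ)
      linarith
    rw [e1]
    have e4 : (7.3 : ℝ) ≤ Real.exp 1 * Real.exp 1 := by nlinarith
    nlinarith
  rw [Real.exp_add, Real.exp_log (by linarith)] at h6
  nlinarith

theorem flat (hGC : GCStmt) (hMcs : McsStmt) (hCov : CovStmt) (hStep : StepStmt)
    (hSum : SumStmt) : FlatStmt := by
  intro d hd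
  obtain ⟨C, hC, hSumC⟩ := hSum d hd
  refine ⟨1 / (288000 * C ^ 2), 86 + 4 * C, by positivity, by positivity, ?_⟩
  intro M _ t σ p hM ht htM hσ hσ1 hp hp2
  have hgr := one_le_growth d ht
  have hlog := Real.log_nonneg ht
  have hσ' : (0:ℝ) < σ := hσ
  have hMpos : (0:ℝ) < M := by exact_mod_cast Nat.pos_of_ne_zero (NeZero.ne M)
  have hSum' : ∀ (z a : ℝ) (V : Tor d M → ℝ), z ≤ 2 * d + 1 → (∀ x, -1 ≤ V x) →
      (AM z V).PosDef → 1 / 2 ≤ a → a ≤ 15 * t → (∀ x, a ≤ DD z V x) →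
      (∀ x, DD z V x ≤ 3 / 2 * a) →
      ∀ x, ∑ y, (GM z V x y) ^ 2 ≤ C * growth d t ∧ GM z V x x ≤ C :=
    fun z a V h1 h2 h3 h4 h5 h6 h7 => hSumC M z t a V hM ht htM h1 h2 h3 h4 h5 h6 h7
  set v : ℝ≥0 := σ ^ 2 with hv
  have hvv : (v : ℝ) = (σ : ℝ) ^ 2 := by rw [hv]; push_cast; rfl
  set K : ℕ := ⌈40 * (1 + Real.log t)⌉₊ with hK
  set q : ℝ := (M : ℝ) ^ d * qq C (C * growth d t) v with hq
  have hq0 : 0 < q := by
    have := qq_pos C (C * growth d t) v
    positivity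
  -- comparison of the probabilities
  have hqq : qq C (C * growth d t) v ≤
      2 * Real.exp (-(1 / (288000 * C ^ 2)) / ((σ : ℝ) ^ 2 * growth d t)) := by
    unfold qq
    refine mul_le_mul_of_nonneg_left (Real.exp_le_exp.2 ?_) (by norm_num)
    rw [hvv, neg_div, neg_div, neg_le_neg_iff, div_div]
    have h1 : Real.sqrt (C * growth d t) ≤ C * Real.sqrt (growth d t) := by
      rw [Real.sqrt_mul (by positivity)]
      refine mul_le_mul_of_nonneg_right ?_ (Real.sqrt_nonneg _)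
      rw [Real.sqrt_le_left (by positivity)]
      nlinarith
    have h2 : C ≤ C * Real.sqrt (growth d t) := by
      have : 1 ≤ Real.sqrt (growth d t) := Real.one_le_sqrt.2 hgr
      nlinarith
    have h3 : (C + Real.sqrt (C * growth d t)) ^ 2 ≤ 4 * C ^ 2 * growth d t := by
      have h4 : C + Real.sqrt (C * growth d t) ≤ 2 * C * Real.sqrt (growth d t) := by linarith
      have h5 : 0 ≤ C + Real.sqrt (C * growth d t) := by positivity
      calc (C + Real.sqrt (C * growth d t)) ^ 2 ≤ (2 * C * Real.sqrt (growth d t)) ^ 2 :=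
            pow_le_pow_left₀ h5 h4 2
        _ = 4 * C ^ 2 * (Real.sqrt (growth d t)) ^ 2 := by ring
        _ = 4 * C ^ 2 * growth d t := by rw [Real.sq_sqrt (by linarith)]
    refine one_div_le_one_div_of_le (by positivity) ?_
    calc 72000 * (C + Real.sqrt (C * growth d t)) ^ 2 * (σ : ℝ) ^ 2
        ≤ 72000 * (4 * C ^ 2 * growth d t) * (σ : ℝ) ^ 2 := by gcongr
      _ = 288000 * C ^ 2 * ((σ : ℝ) ^ 2 * growth d t) := by ring
  have hKle : (K : ℝ) + 2 ≤ 43 * (1 + Real.log t) := by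
    have := (Nat.ceil_lt_add_one (a := 40 * (1 + Real.log t)) (by positivity)).le
    linarith
  have hE : 0 < Real.exp (-(1 / (288000 * C ^ 2)) / ((σ : ℝ) ^ 2 * growth d t)) :=
    Real.exp_pos _
  set E := Real.exp (-(1 / (288000 * C ^ 2)) / ((σ : ℝ) ^ 2 * growth d t)) with hEdef
  have hpq : ((K : ℝ) + 2) * q ≤ p := by
    calc ((K : ℝ) + 2) * q ≤ (43 * (1 + Real.log t)) * ((M : ℝ) ^ d * (2 * E)) := by
          rw [hq]
          gcongr
      _ = 86 * ((1 + Real.log t) * (M : ℝ) ^ d * E) := by ring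
      _ ≤ (86 + 4 * C) * ((1 + Real.log t) * (M : ℝ) ^ d * E) := by
          have : 0 ≤ (1 + Real.log t) * (M : ℝ) ^ d * E := by positivity
          nlinarith
      _ = p := by rw [hp]; ring
  obtain ⟨z, μ, m, F, U, hS, halt⟩ := induct hGC hMcs hCov hStep hC (by linarith) ht hSum'
    (v := v) K (by linarith)
  have hμ : 10 * t ≤ μ ∧ μ ≤ 12 * t := by
    rcases halt with h | ⟨h1, h2⟩
    · exact h
    · exfalso
      have := ten_le_pow ht
      linarith
  have hp'0 : 0 < ((K : ℝ) + 2) * q := by positivity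
  have hest := est hCov hC σ hσ hσ1 hS hp'0 (by linarith)
  refine ⟨z, μ, hμ.1, hμ.2, hS.zle, ?_, ?_⟩
  · refine hest.trans ?_
    have h1 : 1 / μ ≤ 1 / t := one_div_le_one_div_of_le (by linarith) (by linarith [hμ.1])
    have h2 : Real.sqrt (((K : ℝ) + 2) * q) ≤ Real.sqrt p := Real.sqrt_le_sqrt hpq
    have h3 : 0 ≤ 1 / t := by positivity
    have h4 := Real.sqrt_nonneg p
    have h5 : 0 ≤ (σ : ℝ) ^ 2 := by positivity
    nlinarith
  · refine le_trans ?_ (hS.meas.trans (ENNReal.ofReal_le_ofReal hpq))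
    refine measure_mono fun V hV => ?_
    intro hVU
    exact hV (hS.flat V hVU)

end Pool.Agent.BED
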