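import Pool.Agent.Helper54_BED.Stmt

/-!
# BED, module FLAT, part 1: from a rough bound to flatness
-/

set_option autoImplicit false

open MeasureTheory ProbabilityTheory

open scoped ENNReal NNReal BigOperators

noncomputable section

namespace Pool.Agent.BED

open Matrix

variable {d M : ℕ} [NeZero M]

/-- the data at a stage of the induction -/
structure Stage (v : ℝ≥0) (C B z μ m p : ℝ) (F : (Tor d M → ℝ) → ℝ) (U : Set (Tor d M → ℝ)) :
    Prop where
  zle : z ≤ 2 * d + 1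
  μpos : 0 < μ
  mpos : 0 < m
  mle : m ≤ 1.1 * μ
  F0 : ∀ V, 0 ≤ F V
  Fm : ∀ V, F V ≤ m
  lip : ∀ V W, |F V - F W| ≤ m * (C + Real.sqrt B) * Real.sqrt (∑ x, (V x - W x) ^ 2)
  coord : ∀ V W, (∀ x, x ≠ 0 → V x = W x) → |F V - F W| ≤ m * C * |V 0 - W 0|
  int : ∫ V, F V ∂(gau d M v) = μ
  flat : ∀ V ∈ U, Flat z μ V
  eq : ∀ V ∈ U, ∀ x, DD z V x = F (tr x V)
  meas : gau d M v Uᶜ ≤ ENNReal.ofReal p

/-- `ℓ²`-Lipschitz functions are continuous -/
theorem continuous_of_lip {ι : Type*} [Fintype ι] {F : (ι → ℝ) → ℝ} {K : ℝ} (hK : 0 ≤ K)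
    (hF : ∀ x y, |F x - F y| ≤ K * Real.sqrt (∑ i, (x i - y i) ^ 2)) : Continuous F := by
  have h : LipschitzWith (Real.toNNReal (K * Real.sqrt (Fintype.card ι))) F := by
    refine LipschitzWith.of_dist_le_mul fun x y => ?_
    rw [Real.dist_eq, Real.coe_toNNReal _ (by positivity), mul_assoc]
    refine (hF x y).trans (mul_le_mul_of_nonneg_left ?_ hK)
    rw [← Real.sqrt_sq (dist_nonneg (x := x) (y := y)), ← Real.sqrt_mul (Nat.cast_nonneg _)]
    refine Real.sqrt_le_sqrt ?_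
    calc ∑ i, (x i - y i) ^ 2 ≤ ∑ _i : ι, dist x y ^ 2 := by
          refine Finset.sum_le_sum fun i _ => ?_
          rw [← sq_abs (x i - y i), ← Real.dist_eq]
          exact pow_le_pow_left₀ dist_nonneg (dist_le_pi_dist x y i) 2
      _ = Fintype.card ι * dist x y ^ 2 := by simp
  exact h.continuous

theorem gau_isProb (v : ℝ≥0) : IsProbabilityMeasure (gau d M v) := by
  unfold gau; infer_instance

theorem gau_union {v : ℝ≥0} {A : Set (Tor d M → ℝ)} {S : Tor d M → Set (Tor d M → ℝ)}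
    {a q : ℝ} (ha : 0 ≤ a) (hq : 0 ≤ q) (hA : gau d M v A ≤ ENNReal.ofReal a)
    (hS : ∀ x, gau d M v (S x) ≤ ENNReal.ofReal q) :
    gau d M v (A ∪ ⋃ x, S x) ≤ ENNReal.ofReal (a + (M : ℝ) ^ d * q) := by
  have h1 : gau d M v (⋃ x, S x) ≤ ENNReal.ofReal ((M : ℝ) ^ d * q) := by
    refine (measure_iUnion_fintype_le _ _).trans ?_
    calc ∑ x : Tor d M, gau d M v (S x) ≤ ∑ _x : Tor d M, ENNReal.ofReal q :=
          Finset.sum_le_sum fun x _ => hS x
      _ = ENNReal.ofReal ((M : ℝ) ^ d * q) := by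
          rw [Finset.sum_const, Finset.card_univ, Fintype.card_fun, ZMod.card, Fintype.card_fin,
            nsmul_eq_mul, ENNReal.ofReal_mul (by positivity), Nat.cast_pow]
          congr 1
          rw [ENNReal.ofReal_pow (by positivity), ENNReal.ofReal_natCast]
  calc gau d M v (A ∪ ⋃ x, S x) ≤ gau d M v A + gau d M v (⋃ x, S x) := measure_union_le _ _
    _ ≤ ENNReal.ofReal a + ENNReal.ofReal ((M : ℝ) ^ d * q) := add_le_add hA h1
    _ = _ := (ENNReal.ofReal_add ha (by positivity)).symm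

/-- the probability that the landscape function at one point is off by `m/120` -/
def qq (C B : ℝ) (v : ℝ≥0) : ℝ := 2 * Real.exp (-1 / (72000 * (C + Real.sqrt B) ^ 2 * v))

theorem qq_pos (C B : ℝ) (v : ℝ≥0) : 0 < qq C B v := by unfold qq; positivity

theorem next (hGC : GCStmt) (hMcs : McsStmt) (hCov : CovStmt) {C t : ℝ} (hC : 1 ≤ C)
    (hgr : 0 ≤ growth d t)
    (hSum : ∀ (z a : ℝ) (V : Tor d M → ℝ), z ≤ 2 * d + 1 → (∀ x, -1 ≤ V x) → (AM z V).PosDef →
      1 / 2 ≤ a → a ≤ 15 * t → (∀ x, a ≤ DD z V x) → (∀ x, DD z V x ≤ 3 / 2 * a) →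
      ∀ x, ∑ y, (GM z V x y) ^ 2 ≤ C * growth d t ∧ GM z V x x ≤ C)
    {v : ℝ≥0} {z α m p : ℝ} {U₀ : Set (Tor d M → ℝ)} (hz : z ≤ 2 * d + 1) (hα : 1 / 2 ≤ α)
    (hαt : α ≤ 15 * t) (hαm : α ≤ m) (hm : m ≤ 1.06 * α)
    (hU : ∀ V ∈ U₀, (∀ x, -1 ≤ V x) ∧ (AM z V).PosDef ∧ ∀ x, α ≤ DD z V x ∧ DD z V x ≤ m)
    (hp : 0 ≤ p) (hUp : gau d M v U₀ᶜ ≤ ENNReal.ofReal p)
    (hlt : p + (M : ℝ) ^ d * qq C (C * growth d t) v < 1) :
    ∃ (F : (Tor d M → ℝ) → ℝ) (μ : ℝ) (U : Set (Tor d M → ℝ)), U ⊆ U₀ ∧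
      α - m / 120 ≤ μ ∧ μ ≤ m + m / 120 ∧
      Stage v C (C * growth d t) z μ m (p + (M : ℝ) ^ d * qq C (C * growth d t) v) F U := by
  set B : ℝ := C * growth d t with hB
  have hB0 : 0 ≤ B := by positivity
  have hm0 : 0 < m := by linarith
  obtain ⟨F, hF0, hFm, hFlip, hFco, hFeq⟩ := hMcs d M z m B C hm0 hB0 (by linarith)
  have hK : 0 < m * (C + Real.sqrt B) := by positivity
  have hcont := continuous_of_lip hK.le hFlip
  set μ : ℝ := ∫ V, F V ∂(gau d M v) with hμ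
  -- the exceptional set at a point
  set S : Tor d M → Set (Tor d M → ℝ) := fun x => {V | m / 120 ≤ |F (tr x V) - μ|} with hS
  have hSp : ∀ x, gau d M v (S x) ≤ ENNReal.ofReal (qq C B v) := by
    intro x
    have h1 := hGC (Tor d M) v F _ hK hFlip (m / 120) (by positivity)
    have hmeas : MeasurableSet {V : Tor d M → ℝ | m / 120 ≤ |F V - μ|} :=
      measurableSet_le measurable_const ((hcont.measurable.sub_const _).abs)
    have h2 : gau d M v (S x) = gau d M v {V : Tor d M → ℝ | m / 120 ≤ |F V - μ|} := by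
      have h3 := (hCov d M z 0 x).2.2.2.2.2 v
      exact h3.measure_preimage hmeas.nullMeasurableSet
    rw [h2]
    refine (show gau d M v {V : Tor d M → ℝ | m / 120 ≤ |F V - μ|} ≤ _ from h1).trans ?_
    refine ENNReal.ofReal_le_ofReal (le_of_eq ?_)
    unfold qq
    congr 2
    by_cases hv : (v : ℝ) = 0
    · simp [hv]
    · field_simp
      norm_num
  set U : Set (Tor d M → ℝ) := U₀ ∩ ⋂ x, (S x)ᶜ with hUdef
  have hUc : Uᶜ = U₀ᶜ ∪ ⋃ x, S x := by
    rw [hUdef, Set.compl_inter, Set.compl_iInter]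
    simp only [compl_compl]
  have hUm : gau d M v Uᶜ ≤ ENNReal.ofReal (p + (M : ℝ) ^ d * qq C B v) := by
    rw [hUc]
    exact gau_union hp (qq_pos _ _ _).le hUp hSp
  have key : ∀ V ∈ U, ∀ x, DD z V x = F (tr x V) ∧ |DD z V x - μ| < m / 120 := by
    intro V hV x
    obtain ⟨h1, h2⟩ := hV
    obtain ⟨hV1, hV2, hV3⟩ := hU V h1
    have hgood : V ∈ goodSet z m B C := by
      have h4 := hSum z α V hz hV1 hV2 hα hαt (fun y => (hV3 y).1)
        (fun y => (hV3 y).2.trans (by linarith))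
      exact ⟨hV2, fun y => (hV3 y).2, fun y => (h4 y).1, fun y => (h4 y).2⟩
    obtain ⟨-, -, -, hc4, hc5, -⟩ := hCov d M z V x
    have h5 := hFeq (tr x V) ((hc5 m B C).2 hgood)
    have h6 : DD z V x = F (tr x V) := by
      rw [h5, hc4 0, add_zero]
    refine ⟨h6, ?_⟩
    have h7 := Set.mem_iInter.1 h2 x
    simp only [hS, Set.mem_compl_iff, Set.mem_setOf_eq, not_le] at h7
    rw [h6]; exact h7
  -- the good set is not empty
  haveI := gau_isProb (d := d) (M := M) v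
  obtain ⟨V₀, hV₀⟩ : U.Nonempty := by
    by_contra hcon
    rw [Set.not_nonempty_iff_eq_empty] at hcon
    rw [hcon, Set.compl_empty, measure_univ] at hUm
    have : (1 : ℝ≥0∞) < 1 := hUm.trans_lt (by
      rw [← ENNReal.ofReal_one]
      exact (ENNReal.ofReal_lt_ofReal_iff one_pos).2 hlt)
    exact lt_irrefl _ this
  have h8 := (key V₀ hV₀ 0).2
  have h9 := (hU V₀ hV₀.1).2.2 0
  rw [abs_lt] at h8
  have hμ1 : α - m / 120 ≤ μ := by linarith [h8.2, h9.1]
  have hμ2 : μ ≤ m + m / 120 := by linarith [h8.1, h9.2]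
  have hμm : m ≤ 1.1 * μ := by linarith
  have hμ0 : 0 < μ := by linarith
  refine ⟨F, μ, U, Set.inter_subset_left, hμ1, hμ2, ⟨hz, hμ0, hm0, hμm, hF0, hFm, hFlip, hFco,
    rfl, ?_, fun V hV x => (key V hV x).1, hUm⟩⟩
  intro V hV
  obtain ⟨hV1, hV2, hV3⟩ := hU V hV.1
  refine ⟨hV1, hV2, fun x => ?_⟩
  have := (key V hV x).2
  linarith

end Pool.Agent.BED
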