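import Pool.Agent.Helper54_BED.Main
import Pool.Agent.Helper15_BED.Minmax
import Pool.Agent.Helper15_BED.Sum
import Pool.Agent.Helper32_BED.Heat
import Pool.Agent.Helper32_BED.Nash
import Pool.Agent.Helper32_BED.Seq
import Pool.Agent.Helper55_BED.GCFinal
import Pool.Agent.Helper61_BED.Cov
import Pool.Agent.Helper61_BED.Mcs
import Pool.Agent.Helper61_BED.Orth
import Pool.Agent.Helper61_BED.Trans
import Pool.Agent.Helper73_BED.Count
import Pool.Agent.Helper73_BED.Edge
import Pool.Agent.Helper73_BED.LawT
import Pool.Agent.Helper73_BED.StepD

/-!
# BED: all modules together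
-/

set_option autoImplicit false

open MeasureTheory ProbabilityTheory

open scoped ENNReal NNReal BigOperators

noncomputable section

namespace Pool.Agent.BED

universe u

theorem heatAll : HeatStmt := H32.heat H32.nash H32.seq

theorem sumAll : SumStmt := H15.sum_mod heatAll

theorem flatAll : FlatStmt := flat H55.gc H61.mcs H61.cov H73.stepD sumAll

theorem transAll : TransStmt := H61.trans heatAll H61.orth

theorem countAll : CountStmt := H73.count H15.minmax

end Pool.Agent.BED
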