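import Pool.Agent.Helper54_BED.LA

/-!
# Band edge delocalization (BED): module statements
-/

set_option autoImplicit false

open MeasureTheory ProbabilityTheory

open scoped ENNReal NNReal BigOperators

noncomputable section

namespace Pool.Agent.BED

open Matrix Pool.Agent.Anderson Pool.Agent.Loc

/-- Module GC: Gaussian concentration for Lipschitz functions (Maurey-Pisier). -/
def GCStmt : Prop := ∀ (ι : Type) [Fintype ι] (v : ℝ≥0) (F : (ι → ℝ) → ℝ) (K : ℝ), 0 < K →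
  (∀ x y, |F x - F y| ≤ K * Real.sqrt (∑ i, (x i - y i) ^ 2)) → ∀ r : ℝ, 0 ≤ r →
    (Measure.pi fun _ : ι => gaussianReal 0 v)
        {x | r ≤ |F x - ∫ y, F y ∂(Measure.pi fun _ : ι => gaussianReal 0 v)|} ≤
      ENNReal.ofReal (2 * Real.exp (-(r ^ 2) / (5 * K ^ 2 * v)))

/-- Module NASH: the Nash-Poincaré inequality at scale `l`. -/
def NashStmt : Prop := ∀ (d M : ℕ) [NeZero M] (u : Tor d M → ℝ) (l : ℕ), 1 ≤ l → l ≤ M →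
  ∑ x, u x ^ 2 ≤ (1 / (l : ℝ) ^ d) * (∑ x, |u x|) ^ 2 + (d * (l : ℝ) ^ 2 / 2) * energy u

/-- Module SEQ: the recursive inequality implies the decay `n ^ (-d/2)`. -/
def SeqStmt : Prop := ∀ (d M : ℕ), 1 ≤ d → ∀ φ : ℕ → ℝ, (∀ n, 0 ≤ φ n) → φ 0 ≤ 1 →
  (∀ n, φ (n + 1) ≤ φ n) →
  (∀ n l : ℕ, 1 ≤ l → l ≤ M →
    φ (n + 1) ≤ φ n - (1 / (9 * (d : ℝ) ^ 2 * (l : ℝ) ^ 2)) * (φ n - 6 / (l : ℝ) ^ d)) →
  ∀ n : ℕ, n + 1 ≤ M ^ 2 → φ n ≤ KH d * ((n : ℝ) + 1) ^ (-(d : ℝ) / 2)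

/-- Module HEAT: heat kernel bounds from the flatness of the landscape function. -/
def HeatStmt : Prop := ∀ (d M : ℕ) [NeZero M], 1 ≤ d → ∀ (z : ℝ) (V : Tor d M → ℝ) (a : ℝ),
  z ≤ 2 * d + 1 → (∀ x, -1 ≤ V x) → (AM z V).PosDef → 0 < a →
  (∀ x, a ≤ DD z V x) → (∀ x, DD z V x ≤ 3 / 2 * a) →
    (∀ x y, 0 ≤ TM z V x y) ∧
    (∀ (x : Tor d M) (n : ℕ), ∑ y, ((TM z V ^ (n + 1)) x y) ^ 2 ≤ ∑ y, ((TM z V ^ n) x y) ^ 2) ∧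
    (∀ (x : Tor d M) (n : ℕ), n + 1 ≤ M ^ 2 →
      ∑ y, ((TM z V ^ n) x y) ^ 2 ≤ KH d * ((n : ℝ) + 1) ^ (-(d : ℝ) / 2)) ∧
    (∀ f : Tor d M → ℝ, ∑ x, ((TM z V *ᵥ f) x) ^ 2 ≤ (1 - 1 / (12 * d * a)) * ∑ x, f x ^ 2) ∧
    (∀ f : Tor d M → ℝ, 0 ≤ ∑ x, f x * (TM z V *ᵥ f) x) ∧
    (∀ f : Tor d M → ℝ, ∑ x, f x * (TM z V *ᵥ f) x ≤ ∑ x, f x ^ 2)

/-- Module SUM: bounds for the Green function. -/
def SumStmt : Prop := ∀ d : ℕ, 3 ≤ d → ∃ C : ℝ, 1 ≤ C ∧ ∀ (M : ℕ) [NeZero M] (z t a : ℝ)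
    (V : Tor d M → ℝ), 3 ≤ M → 1 ≤ t → t ≤ M → z ≤ 2 * d + 1 → (∀ x, -1 ≤ V x) →
    (AM z V).PosDef → 1 / 2 ≤ a → a ≤ 15 * t → (∀ x, a ≤ DD z V x) →
    (∀ x, DD z V x ≤ 3 / 2 * a) →
      ∀ x, ∑ y, (GM z V x y) ^ 2 ≤ C * growth d t ∧ GM z V x x ≤ C

/-- Module MCS: Lipschitz extension of the landscape function at the origin. -/
def McsStmt : Prop := ∀ (d M : ℕ) [NeZero M] (z m B C1 : ℝ), 0 < m → 0 ≤ B → 0 ≤ C1 →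
  ∃ F : (Tor d M → ℝ) → ℝ, (∀ V, 0 ≤ F V) ∧ (∀ V, F V ≤ m) ∧
    (∀ V W, |F V - F W| ≤ m * (C1 + Real.sqrt B) * Real.sqrt (∑ x, (V x - W x) ^ 2)) ∧
    (∀ V W, (∀ x, x ≠ 0 → V x = W x) → |F V - F W| ≤ m * C1 * |V 0 - W 0|) ∧
    ∀ V ∈ goodSet z m B C1, F V = DD z V 0

/-- Module STEPD: the deterministic step. -/
def StepStmt : Prop := ∀ (d M : ℕ) [NeZero M] (z μ : ℝ) (V : Tor d M → ℝ), 0 < μ →
  (AM z V).PosDef → (∀ x, |DD z V x - μ| ≤ μ / 50) →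
    (AM (z - 1 / (10 * μ)) V).PosDef ∧
      ∀ x, 1.08 * μ ≤ DD (z - 1 / (10 * μ)) V x ∧ DD (z - 1 / (10 * μ)) V x ≤ 1.14 * μ

/-- Module COV: translation covariance. -/
def CovStmt : Prop := ∀ (d M : ℕ) [NeZero M] (z : ℝ) (V : Tor d M → ℝ) (x : Tor d M),
  (∀ y w, AM z (tr x V) y w = AM z V (x + y) (x + w)) ∧
  ((AM z (tr x V)).PosDef ↔ (AM z V).PosDef) ∧
  (∀ y w, GM z (tr x V) y w = GM z V (x + y) (x + w)) ∧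
  (∀ y, DD z (tr x V) y = DD z V (x + y)) ∧
  (∀ m B C1 : ℝ, tr x V ∈ goodSet z m B C1 ↔ V ∈ goodSet z m B C1) ∧
  ∀ v : ℝ≥0, MeasurePreserving (tr x) (gau d M v) (gau d M v)

/-- Module FLAT: with large probability the landscape function is flat. -/
def FlatStmt : Prop := ∀ d : ℕ, 3 ≤ d → ∃ c0 C0 : ℝ, 0 < c0 ∧ 0 < C0 ∧
  ∀ (M : ℕ) [NeZero M] (t : ℝ) (σ : ℝ≥0) (p : ℝ), 3 ≤ M → 1 ≤ t → t ≤ M → 0 < σ → σ ≤ 1 →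
    p = C0 * (1 + Real.log t) * (M : ℝ) ^ d * Real.exp (-c0 / ((σ : ℝ) ^ 2 * growth d t)) →
    p ≤ 1 / 2 →
    ∃ z μ : ℝ, 10 * t ≤ μ ∧ μ ≤ 12 * t ∧ z ≤ 2 * d + 1 ∧
      |z - 2 * d| ≤ C0 * ((σ : ℝ) ^ 2 + 1 / t + Real.sqrt p) ∧
      gau d M (σ ^ 2) {V | ¬ Flat z μ V} ≤ ENNReal.ofReal p

/-- Module TRANS: from the torus to `ℤ^d` (sup bound for combinations of eigenfunctions of the
restriction to any set `S`, energies near the top of the spectrum). -/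
def TransStmt : Prop := ∀ (d M : ℕ) [NeZero M], 1 ≤ d → ∀ (r : ℕ), 1 ≤ r → 4 * r + 3 ≤ M →
  ∀ (z μ : ℝ) (W : Site d → ℝ), 0 < μ → z ≤ 2 * d + 1 →
    Flat z μ (fun x : Tor d M => W (rep x)) →
    ∀ lam : ℝ, 1 / (r : ℝ) ≤ lam → lam ≤ 1 →
    ∀ (S : Set (Site d)) (J : Finset ℝ) (u : ℝ → L2 d), (∀ E ∈ J, z - lam ≤ E) →
      (∀ E ∈ J, IsEigenOn S W E (u E)) →
      ∀ x : Site d, (∀ i, |x i| ≤ r) →
        ‖(∑ E ∈ J, u E : L2 d) x‖ ^ 2 ≤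
          3 * KH d * lam ^ ((d : ℝ) / 2) * ‖(∑ E ∈ J, u E : L2 d)‖ ^ 2

/-- Module ORTH: eigenfunctions for different energies are orthogonal. -/
def OrthStmt : Prop := ∀ (d : ℕ) (S : Set (Site d)) (W : Site d → ℝ) (J : Finset ℝ)
  (u : ℝ → L2 d), (∀ E ∈ J, IsEigenOn S W E (u E)) →
    ∀ c : ℝ → ℝ, ‖(∑ E ∈ J, (c E : ℂ) • u E : L2 d)‖ ^ 2 = ∑ E ∈ J, (c E) ^ 2 * ‖u E‖ ^ 2

/-- Module MINMAX: counting eigenvalues by test functions with disjoint, non-adjacent supports. -/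
def MinmaxStmt : Prop := ∀ (n : Type) [Fintype n] [DecidableEq n] (H : Matrix n n ℝ)
  (hH : H.IsHermitian) (e : ℝ) (k : ℕ) (f : Fin k → n → ℝ), (∀ j, f j ≠ 0) →
    (∀ j j', j ≠ j' → ∀ x, f j x * f j' x = 0) →
    (∀ j j', j ≠ j' → ∑ x, f j x * (H *ᵥ f j') x = 0) →
    (∀ j, e * ∑ x, f j x ^ 2 ≤ ∑ x, f j x * (H *ᵥ f j) x) →
      k ≤ (Finset.univ.filter fun i => e ≤ hH.eigenvalues i).card

/-- Module COUNT: many eigenvalues near the top in boxes. -/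
def CountStmt : Prop := ∀ d : ℕ, 1 ≤ d → ∃ C : ℝ, 0 < C ∧ ∀ (M : ℕ) [NeZero M] (r : ℕ),
  4 * r + 3 ≤ M → ∀ (z μ : ℝ) (W : Site d → ℝ), 0 < μ →
    Flat z μ (fun x : Tor d M => W (rep x)) →
    ∀ (x₀ : Site d) (L : ℕ), (∀ i, |x₀ i| + L ≤ r) →
      ∀ (hH : (HM W (box x₀ L)).IsHermitian) (lam : ℝ), 10 / μ ≤ lam → lam ≤ 1 →
        C ≤ lam * (L : ℝ) ^ 2 →
        lam ^ ((d : ℝ) / 2) * (2 * (L : ℝ) + 1) ^ d ≤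
          C * ((Finset.univ.filter fun i => z - lam ≤ hH.eigenvalues i).card : ℝ)

/-- Module EDGE: no eigenvalues above `z` or below `-z` in boxes. -/
def EdgeStmt : Prop := ∀ (d M : ℕ) [NeZero M], 1 ≤ d → ∀ (r : ℕ),
  4 * r + 3 ≤ M → ∀ (z μ : ℝ) (W : Site d → ℝ), 0 < μ →
    ∀ (x₀ : Site d) (L : ℕ), (∀ i, |x₀ i| + L ≤ r) →
      ∀ (hH : (HM W (box x₀ L)).IsHermitian),
        (Flat z μ (fun x : Tor d M => W (rep x)) → ∀ i, hH.eigenvalues i < z) ∧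
        (Flat z μ (fun x : Tor d M => - W (rep x)) → ∀ i, -z < hH.eigenvalues i)

universe u

/-- Module LAWT: the law of the potential on the torus. -/
def LawStmt : Prop := ∀ (d M : ℕ) [NeZero M] (Ω : Type u) [MeasurableSpace Ω] (P : Measure Ω)
  [IsProbabilityMeasure P] (ξ : Site d → Ω → ℝ), (∀ y, Measurable (ξ y)) →
    (∀ y, P.map (ξ y) = gaussianReal 0 1) → iIndepFun ξ P → ∀ (s : ℝ) (v : ℝ≥0),
      (v : ℝ) = s ^ 2 → P.map (fun ω (x : Tor d M) => s * ξ (rep x) ω) = gau d M v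

end Pool.Agent.BED
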