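import Pool.Agent.Helper54_BED.Stmt

/-!
# BED: both ends of the spectrum (staggering)
-/

set_option autoImplicit false

open MeasureTheory ProbabilityTheory

open scoped ENNReal NNReal BigOperators

noncomputable section

namespace Pool.Agent.BED

open Matrix Pool.Agent.Anderson Pool.Agent.Loc

variable {d : ℕ}

/-- the staggering sign -/
def sg (y : Site d) : ℝ := if Even (∑ i, y i) then 1 else -1

theorem sg_sq (y : Site d) : sg y * sg y = 1 := by
  unfold sg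
  split_ifs <;> norm_num

theorem abs_sg (y : Site d) : |sg y| = 1 := by
  unfold sg
  split_ifs <;> norm_num

theorem sg_add (y : Site d) (i : Fin d) : sg (y + Pi.single i 1) = - sg y := by
  unfold sg
  have h1 : ∑ j, (y + Pi.single i 1 : Site d) j = ∑ j, y j + 1 := by
    simp [Finset.sum_add_distrib]
  rw [h1]
  by_cases h : Even (∑ j, y j)
  · have h' : ¬ Even (∑ j, y j + 1) := by
      rw [Int.not_even_iff_odd]; exact h.add_one
    rw [if_pos h, if_neg h']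
  · have h' : Even (∑ j, y j + 1) := (Int.not_even_iff_odd.1 h).add_one
    rw [if_neg h, if_pos h', neg_neg]

theorem sg_sub (y : Site d) (i : Fin d) : sg (y - Pi.single i 1) = - sg y := by
  have h := sg_add (y - Pi.single i 1) i
  rw [sub_add_cancel] at h
  linarith

/-- staggered vector -/
def stg (u : L2 d) : L2 d :=
  ⟨fun x => (sg x : ℂ) * u x, by
    refine memℓp_gen ?_
    have h := (lp.memℓp u).summable (by norm_num)
    refine h.congr fun x => ?_
    rw [norm_mul, Complex.norm_real, Real.norm_eq_abs, abs_sg, one_mul]⟩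

theorem stg_apply (u : L2 d) (x : Site d) : stg u x = (sg x : ℂ) * u x := rfl

theorem norm_stg_apply (u : L2 d) (x : Site d) : ‖stg u x‖ = ‖u x‖ := by
  rw [stg_apply, norm_mul, Complex.norm_real, Real.norm_eq_abs, abs_sg, one_mul]

theorem norm_stg (u : L2 d) : ‖stg u‖ = ‖u‖ := by
  have h2 : (0:ℝ) < (2:ℝ≥0∞).toReal := by norm_num
  rw [lp.norm_eq_tsum_rpow h2, lp.norm_eq_tsum_rpow h2]
  simp only [norm_stg_apply]

theorem stg_sum (J : Finset ℝ) (u : ℝ → L2 d) : stg (∑ E ∈ J, u E) = ∑ E ∈ J, stg (u E) := by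
  ext x
  rw [stg_apply, lp.coeFn_sum, lp.coeFn_sum]
  simp only [Finset.sum_apply, Finset.mul_sum, stg_apply]

theorem isEigenOn_stg {S : Set (Site d)} {W : Site d → ℝ} {E : ℝ} {u : L2 d}
    (h : IsEigenOn S W E u) : IsEigenOn S (fun y => - W y) (-E) (stg u) := by
  refine ⟨fun x hx => by rw [stg_apply, h.1 x hx, mul_zero], fun x hx => ?_⟩
  have h1 := h.2 x hx
  have h2 : lap (stg u) x = - (sg x : ℂ) * lap u x := by
    unfold lap
    rw [Finset.mul_sum]
    refine Finset.sum_congr rfl fun i _ => ?_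
    rw [stg_apply, stg_apply, sg_add, sg_sub]
    push_cast; ring
  rw [h2, stg_apply]
  push_cast
  linear_combination (-(sg x : ℂ)) * h1

/-- The bound for both ends of the spectrum. -/
theorem both (hTrans : TransStmt) (hOrth : OrthStmt) {M : ℕ} [NeZero M] (hd : 1 ≤ d) {r : ℕ}
    (hr : 1 ≤ r) (hM : 4 * r + 3 ≤ M) {z μ : ℝ} {W : Site d → ℝ} (hμ : 0 < μ)
    (hz : z ≤ 2 * d + 1) (h1 : Flat z μ (fun x : Tor d M => W (rep x)))
    (h2 : Flat z μ (fun x : Tor d M => - W (rep x))) {lam : ℝ} (hl1 : 1 / (r : ℝ) ≤ lam)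
    (hl2 : lam ≤ 1) (S : Set (Site d)) (J : Finset ℝ) (u : ℝ → L2 d)
    (hJ : ∀ E ∈ J, z - lam ≤ |E|) (hu : ∀ E ∈ J, IsEigenOn S W E (u E)) (x : Site d)
    (hx : ∀ i, |x i| ≤ r) :
    ‖(∑ E ∈ J, u E : L2 d) x‖ ^ 2 ≤
      6 * KH d * lam ^ ((d : ℝ) / 2) * ‖(∑ E ∈ J, u E : L2 d)‖ ^ 2 := by
  classical
  set Jp := J.filter fun E => z - lam ≤ E with hJp
  set Jm := J.filter fun E => ¬ (z - lam ≤ E) with hJm
  set vp : L2 d := ∑ E ∈ Jp, u E with hvp
  set vm : L2 d := ∑ E ∈ Jm, u E with hvm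
  have hsplit : (∑ E ∈ J, u E : L2 d) = vp + vm := by
    rw [hvp, hvm, hJp, hJm, Finset.sum_filter_add_sum_filter_not]
  have horth : ∀ T : Finset ℝ, T ⊆ J → ‖(∑ E ∈ T, u E : L2 d)‖ ^ 2 = ∑ E ∈ T, ‖u E‖ ^ 2 := by
    intro T hT
    have := hOrth d S W T u (fun E hE => hu E (hT hE)) (fun _ => 1)
    simpa using this
  have hnorm : ‖vp‖ ^ 2 + ‖vm‖ ^ 2 = ‖(∑ E ∈ J, u E : L2 d)‖ ^ 2 := by
    rw [hvp, hvm, horth _ (Finset.filter_subset _ _), horth _ (Finset.filter_subset _ _),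
      horth _ subset_rfl, Finset.sum_filter_add_sum_filter_not]
  have hp := hTrans d M hd r hr hM z μ W hμ hz h1 lam hl1 hl2 S Jp u
    (fun E hE => (Finset.mem_filter.1 hE).2) (fun E hE => hu E (Finset.mem_filter.1 hE).1) x hx
  -- the lower end
  have hm : ‖vm x‖ ^ 2 ≤ 3 * KH d * lam ^ ((d : ℝ) / 2) * ‖vm‖ ^ 2 := by
    have hinj : Set.InjOn (fun E : ℝ => -E) Jm := fun a _ b _ hab => neg_injective hab
    have hs : stg vm = ∑ E ∈ Jm.image (fun E => -E), stg (u (-E)) := by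
      rw [Finset.sum_image hinj, hvm, stg_sum]
      simp only [neg_neg]
    have h3 := hTrans d M hd r hr hM z μ (fun y => - W y) hμ hz h2 lam hl1 hl2 S
      (Jm.image fun E => -E) (fun E => stg (u (-E))) (fun E hE => by
        obtain ⟨E', hE', rfl⟩ := Finset.mem_image.1 hE
        obtain ⟨h4, h5⟩ := Finset.mem_filter.1 hE'
        have h6 := hJ E' h4
        rcases le_total 0 E' with h7 | h7
        · rw [abs_of_nonneg h7] at h6; exact absurd h6 h5
        · rw [abs_of_nonpos h7] at h6; exact h6) (fun E hE => by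
        obtain ⟨E', hE', rfl⟩ := Finset.mem_image.1 hE
        have h4 := isEigenOn_stg (hu E' (Finset.mem_filter.1 hE').1)
        simpa using h4) x hx
    rw [← hs, norm_stg_apply, norm_stg] at h3
    exact h3
  rw [← hnorm, hsplit]
  have e : (vp + vm : L2 d) x = vp x + vm x := rfl
  rw [e]
  have h5 : ‖vp x + vm x‖ ^ 2 ≤ 2 * ‖vp x‖ ^ 2 + 2 * ‖vm x‖ ^ 2 := by
    have h6 := norm_add_le (vp x) (vm x)
    have h7 : ‖vp x + vm x‖ ^ 2 ≤ (‖vp x‖ + ‖vm x‖) ^ 2 :=
      pow_le_pow_left₀ (norm_nonneg _) h6 2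
    nlinarith [sq_nonneg (‖vp x‖ - ‖vm x‖)]
  calc ‖vp x + vm x‖ ^ 2 ≤ 2 * ‖vp x‖ ^ 2 + 2 * ‖vm x‖ ^ 2 := h5
    _ ≤ 2 * (3 * KH d * lam ^ ((d : ℝ) / 2) * ‖vp‖ ^ 2) +
        2 * (3 * KH d * lam ^ ((d : ℝ) / 2) * ‖vm‖ ^ 2) := by linarith
    _ = _ := by ring

end Pool.Agent.BED
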