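import Pool.Agent.BED.Stmts
import Pool.Agent.Helper82_BE01.DIA

/-!
# Squad BED, row CDI: the operators of DIA preserve the closed subspaces stable under `S`
-/

namespace Pool.Agent.BED.H54

open Set Filter Topology MeasureTheory
open scoped InnerProductSpace ENNReal
open Pool.Agent.BE01 Pool.Agent.BED
open Pool.Agent.Helper82_BE01 (ext_basis exists_diag clm_ext inner_basis diag_basis strong_cont)

noncomputable section

variable {H : Type} [NormedAddCommGroup H] [InnerProductSpace ℝ H] {κ : Type}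

/-- the construction of DIA, with the coordinates of the operators -/
theorem dia2 (S : H →L[ℝ] H) (b : HilbertBasis κ ℝ H) (s : κ → ℝ)
    [CompleteSpace H] (hs : ∀ k, 0 < s k) (hS : ∀ k, S (b k) = s k • b k) :
    ∃ (R : H →L[ℝ] H) (C Sn : ℝ → H →L[ℝ] H), Prp H S R C Sn ∧
      (∀ h k, ⟪b k, R h⟫_ℝ = Real.sqrt (s k) * ⟪b k, h⟫_ℝ) ∧
      (∀ τ h k, ⟪b k, C τ h⟫_ℝ = Real.cos (τ / Real.sqrt (s k)) * ⟪b k, h⟫_ℝ) ∧
      (∀ τ h k, ⟪b k, Sn τ h⟫_ℝ = Real.sin (τ / Real.sqrt (s k)) * ⟪b k, h⟫_ℝ) := by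
  classical
  -- bound for s
  have hsb : ∀ k, s k ≤ ‖S‖ := by
    intro k
    have h1 := S.le_opNorm (b k)
    rw [hS k, norm_smul, b.orthonormal.1 k, mul_one, mul_one, Real.norm_of_nonneg (hs k).le] at h1
    exact h1
  have hsq : ∀ k, 0 < Real.sqrt (s k) := fun k => Real.sqrt_pos.2 (hs k)
  have hSd : ∀ h k, ⟪b k, S h⟫_ℝ = s k * ⟪b k, h⟫_ℝ := by
    intro h k
    have : (innerSL ℝ (b k)).comp S = s k • innerSL ℝ (b k) := by
      apply clm_ext b
      intro i
      simp only [ContinuousLinearMap.comp_apply, innerSL_apply_apply,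
        smul_apply, smul_eq_mul]
      rw [hS i, inner_smul_right, inner_basis]
      by_cases hik : k = i
      · subst hik; rfl
      · simp [hik]
    have h2 := congrArg (fun f => f h) this
    simpa using h2
  obtain ⟨R, hR, -⟩ := exists_diag b (fun k => Real.sqrt (s k)) (Real.sqrt ‖S‖)
    (Real.sqrt_nonneg _) (fun k => by
      rw [abs_of_pos (hsq k)]
      exact Real.sqrt_le_sqrt (hsb k))
  have hCe : ∀ τ : ℝ, ∃ D : H →L[ℝ] H, (∀ h k, ⟪b k, D h⟫_ℝ =
      Real.cos (τ / Real.sqrt (s k)) * ⟪b k, h⟫_ℝ) ∧ ∀ h, ‖D h‖ ≤ 1 * ‖h‖ := fun τ =>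
    exists_diag b (fun k => Real.cos (τ / Real.sqrt (s k))) 1 zero_le_one
      (fun k => Real.abs_cos_le_one _)
  have hSe : ∀ τ : ℝ, ∃ D : H →L[ℝ] H, (∀ h k, ⟪b k, D h⟫_ℝ =
      Real.sin (τ / Real.sqrt (s k)) * ⟪b k, h⟫_ℝ) ∧ ∀ h, ‖D h‖ ≤ 1 * ‖h‖ := fun τ =>
    exists_diag b (fun k => Real.sin (τ / Real.sqrt (s k))) 1 zero_le_one
      (fun k => Real.abs_sin_le_one _)
  choose C hC hC1 using hCe
  choose Sn hSn hSn1 using hSe
  have C_le : ∀ τ h, ‖C τ h‖ ≤ ‖h‖ := fun τ h => by simpa using hC1 τ h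
  have Sn_le : ∀ τ h, ‖Sn τ h‖ ≤ ‖h‖ := fun τ h => by simpa using hSn1 τ h
  have C_cont : ∀ h, Continuous fun τ => C τ h := by
    intro h
    apply strong_cont b C C_le
    intro k
    have : (fun τ => C τ (b k)) = fun τ => Real.cos (τ / Real.sqrt (s k)) • b k := by
      funext τ
      exact diag_basis b _ _ (hC τ) k
    rw [this]
    fun_prop
  have Sn_cont : ∀ h, Continuous fun τ => Sn τ h := by
    intro h
    apply strong_cont b Sn Sn_le
    intro k
    have : (fun τ => Sn τ (b k)) = fun τ => Real.sin (τ / Real.sqrt (s k)) • b k := by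
      funext τ
      exact diag_basis b _ _ (hSn τ) k
    rw [this]
    fun_prop
  -- integrals
  have intS : ∀ h τ, R (Sn τ h) = ∫ u in (0 : ℝ)..τ, C u h := by
    intro h τ
    apply ext_basis b
    intro k
    rw [hR, hSn]
    have h1 : ⟪b k, ∫ u in (0 : ℝ)..τ, C u h⟫_ℝ = ∫ u in (0 : ℝ)..τ, ⟪b k, C u h⟫_ℝ := by
      have := ContinuousLinearMap.intervalIntegral_comp_comm (innerSL ℝ (b k))
        ((C_cont h).intervalIntegrable (μ := volume) 0 τ)
      simpa using this.symm
    rw [h1]
    simp_rw [hC]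
    rw [intervalIntegral.integral_mul_const]
    have h2 : ∫ x in (0 : ℝ)..τ, Real.cos (x / Real.sqrt (s k)) =
        Real.sqrt (s k) * Real.sin (τ / Real.sqrt (s k)) := by
      rw [intervalIntegral.integral_comp_div (fun x => Real.cos x) (hsq k).ne']
      simp
    rw [h2]
    ring
  have intC : ∀ h τ, R (C τ h) = R h - ∫ u in (0 : ℝ)..τ, Sn u h := by
    intro h τ
    apply ext_basis b
    intro k
    rw [hR, hC, inner_sub_right, hR]
    have h1 : ⟪b k, ∫ u in (0 : ℝ)..τ, Sn u h⟫_ℝ = ∫ u in (0 : ℝ)..τ, ⟪b k, Sn u h⟫_ℝ := by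
      have := ContinuousLinearMap.intervalIntegral_comp_comm (innerSL ℝ (b k))
        ((Sn_cont h).intervalIntegrable (μ := volume) 0 τ)
      simpa using this.symm
    rw [h1]
    simp_rw [hSn]
    rw [intervalIntegral.integral_mul_const]
    have h2 : ∫ x in (0 : ℝ)..τ, Real.sin (x / Real.sqrt (s k)) =
        Real.sqrt (s k) * (1 - Real.cos (τ / Real.sqrt (s k))) := by
      rw [intervalIntegral.integral_comp_div (fun x => Real.sin x) (hsq k).ne']
      simp
    rw [h2]
    ring
  refine ⟨R, C, Sn, ?_, hR, hC, hSn⟩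
  refine ⟨?_, ?_, ?_, ?_, ?_, C_le, Sn_le, C_cont, Sn_cont, ?_, ?_, ?_, ?_⟩
  · intro h
    apply ext_basis b
    intro k
    rw [hR, hR, hSd, ← mul_assoc, Real.mul_self_sqrt (hs k).le]
  · intro x y hxy
    apply ext_basis b
    intro k
    have h1 : ⟪b k, R x⟫_ℝ = ⟪b k, R y⟫_ℝ := by rw [hxy]
    rw [hR, hR] at h1
    exact mul_left_cancel₀ (hsq k).ne' h1
  · intro x y
    have : (innerSL ℝ y).comp R = innerSL ℝ (R y) := by
      apply clm_ext b
      intro i
      simp only [ContinuousLinearMap.comp_apply, innerSL_apply_apply]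
      rw [diag_basis b _ R hR i, inner_smul_right, real_inner_comm, real_inner_comm (b i) (R y),
        hR]
    have h2 := congrArg (fun f => f x) this
    simp only [ContinuousLinearMap.comp_apply, innerSL_apply_apply] at h2
    rw [real_inner_comm, h2, real_inner_comm]
  · intro h
    apply ext_basis b
    intro k
    rw [hC]
    simp
  · intro h
    apply ext_basis b
    intro k
    rw [hSn]
    simp
  · intro τ h
    apply ext_basis b
    intro k
    rw [hR, hC, hC, hR]
    ring
  · intro τ h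
    apply ext_basis b
    intro k
    rw [hR, hSn, hSn, hR]
    ring
  · intro h τ
    have h1 : (fun s => R (Sn s h)) = fun s => ∫ u in (0 : ℝ)..s, C u h := by
      funext s
      exact intS h s
    rw [h1]
    exact intervalIntegral.integral_hasDerivAt_right ((C_cont h).intervalIntegrable _ _)
      ((C_cont h).stronglyMeasurableAtFilter _ _) (C_cont h).continuousAt
  · intro h τ
    have h1 : (fun s => R (C s h)) = fun s => R h - ∫ u in (0 : ℝ)..s, Sn u h := by
      funext s
      exact intC h s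
    rw [h1]
    exact (intervalIntegral.integral_hasDerivAt_right ((Sn_cont h).intervalIntegrable _ _)
      ((Sn_cont h).stronglyMeasurableAtFilter _ _) (Sn_cont h).continuousAt).const_sub (R h)


/-- A diagonal operator whose coefficients are a function of those of `S` preserves the closed
subspaces stable under `S`. -/
theorem kin_diag [CompleteSpace H] (S : H →L[ℝ] H) (b : HilbertBasis κ ℝ H) (s : κ → ℝ)
    (hS : ∀ k, S (b k) = s k • b k) (D : H →L[ℝ] H) (f : ℝ → ℝ)
    (hD : ∀ h k, ⟪b k, D h⟫_ℝ = f (s k) * ⟪b k, h⟫_ℝ) (K : Submodule ℝ H)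
    (hK : IsClosed (K : Set H)) (hSK : ∀ h ∈ K, S h ∈ K) : ∀ h ∈ K, D h ∈ K := by
  classical
  have hc : CompleteSpace K := hK.completeSpace_coe
  have hSd : ∀ h k, ⟪b k, S h⟫_ℝ = s k * ⟪b k, h⟫_ℝ := by
    intro h k
    have : (innerSL ℝ (b k)).comp S = s k • innerSL ℝ (b k) := by
      apply clm_ext b
      intro i
      simp only [ContinuousLinearMap.comp_apply, innerSL_apply_apply,
        smul_apply, smul_eq_mul]
      rw [hS i, inner_smul_right, inner_basis]
      by_cases hik : k = i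
      · subst hik; rfl
      · simp [hik]
    have h2 := congrArg (fun f => f h) this
    simpa using h2
  have hsym : ∀ x y, ⟪S x, y⟫_ℝ = ⟪x, S y⟫_ℝ := by
    intro x y
    have : (innerSL ℝ y).comp S = innerSL ℝ (S y) := by
      apply clm_ext b
      intro i
      simp only [ContinuousLinearMap.comp_apply, innerSL_apply_apply]
      rw [hS i, inner_smul_right, real_inner_comm, real_inner_comm (b i) (S y), hSd]
    have h2 := congrArg (fun f => f x) this
    simp only [ContinuousLinearMap.comp_apply, innerSL_apply_apply] at h2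
    rw [real_inner_comm, h2, real_inner_comm]
  have hSo : ∀ v ∈ Kᗮ, S v ∈ Kᗮ := by
    intro v hv
    rw [Submodule.mem_orthogonal] at hv ⊢
    intro u hu
    rw [← hsym]
    exact hv _ (hSK u hu)
  have hPS : ∀ h, K.starProjection (S h) = S (K.starProjection h) := by
    intro h
    refine Submodule.eq_starProjection_of_mem_orthogonal (hSK _ (K.starProjection_apply_mem h)) ?_
    rw [← map_sub]
    exact hSo _ (Submodule.sub_starProjection_mem_orthogonal h)
  have hkey : ∀ k l, s k * ⟪b l, K.starProjection (b k)⟫_ℝ =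
      s l * ⟪b l, K.starProjection (b k)⟫_ℝ := by
    intro k l
    rw [← hSd, ← hPS, hS, map_smul, inner_smul_right]
  have hkey2 : ∀ k l, f (s k) * ⟪b l, K.starProjection (b k)⟫_ℝ =
      f (s l) * ⟪b l, K.starProjection (b k)⟫_ℝ := by
    intro k l
    by_cases h0 : ⟪b l, K.starProjection (b k)⟫_ℝ = 0
    · rw [h0, mul_zero, mul_zero]
    · rw [mul_right_cancel₀ h0 (hkey k l)]
  have hcomm : K.starProjection.comp D = D.comp K.starProjection := by
    apply clm_ext b
    intro k
    simp only [ContinuousLinearMap.comp_apply]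
    apply ext_basis b
    intro l
    rw [hD, diag_basis b (fun k => f (s k)) D hD k, map_smul, inner_smul_right]
    exact hkey2 k l
  intro h hh
  have h1 : K.starProjection h = h := Submodule.starProjection_eq_self_iff.mpr hh
  have h2 := congrArg (fun g => g h) hcomm
  simp only [ContinuousLinearMap.comp_apply] at h2
  rw [h1] at h2
  exact Submodule.starProjection_eq_self_iff.mp h2

theorem cdi : CdiStmt := by
  intro H _ _ _ S κ b s hs hS
  obtain ⟨R, C, Sn, hP, hR, hC, hSn⟩ := dia2 S b s hs hS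
  refine ⟨R, C, Sn, hP, ?_⟩
  intro K hK hSK
  refine ⟨?_, ?_, ?_⟩
  · exact kin_diag S b s hS R (fun x => Real.sqrt x) hR K hK hSK
  · intro τ
    exact kin_diag S b s hS (C τ) (fun x => Real.cos (τ / Real.sqrt x)) (hC τ) K hK hSK
  · intro τ
    exact kin_diag S b s hS (Sn τ) (fun x => Real.sin (τ / Real.sqrt x)) (hSn τ) K hK hSK

end

end Pool.Agent.BED.H54
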