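import Pool.Agent.Helper48_Loc.Defs

/-!
# Band edge delocalization (BED): definitions

The operator `z - V - Δ` on the discrete torus `(ℤ/M)^d`, its inverse, the landscape function
`DD z V = (z - V - Δ)⁻¹ 1`.
-/

set_option autoImplicit false

open MeasureTheory ProbabilityTheory

open scoped ENNReal NNReal BigOperators

noncomputable section

namespace Pool.Agent.BED

open Pool.Agent.Anderson Pool.Agent.Loc

/-- the discrete torus `(ℤ/M)^d` -/
abbrev Tor (d M : ℕ) : Type := Fin d → ZMod M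

variable {d M : ℕ}

/-- the unit vectors -/
def ev (i : Fin d) : Tor d M := Pi.single i 1

/-- the adjacency matrix of the torus (with multiplicities): `(adj f)(x)` is the sum of `f` over
the `2d` neighbours of `x` -/
def adj (d M : ℕ) [NeZero M] : Matrix (Tor d M) (Tor d M) ℝ :=
  Matrix.of fun x y => ∑ i : Fin d, ((if y = x + ev i then (1 : ℝ) else 0) +
    (if y = x - ev i then (1 : ℝ) else 0))

/-- the matrix of `z - V - Δ` on the torus -/
def AM [NeZero M] (z : ℝ) (V : Tor d M → ℝ) : Matrix (Tor d M) (Tor d M) ℝ :=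
  Matrix.diagonal (fun x => z - V x) - adj d M

/-- the inverse of `z - V - Δ` -/
def GM [NeZero M] (z : ℝ) (V : Tor d M → ℝ) : Matrix (Tor d M) (Tor d M) ℝ := (AM z V)⁻¹

/-- the landscape function `(z - V - Δ)⁻¹ 1` -/
def DD [NeZero M] (z : ℝ) (V : Tor d M → ℝ) (x : Tor d M) : ℝ := ∑ y, GM z V x y

/-- `1 - (z - V - Δ)/(8d)` -/
def TM [NeZero M] (z : ℝ) (V : Tor d M → ℝ) : Matrix (Tor d M) (Tor d M) ℝ :=
  1 - (1 / (8 * (d : ℝ))) • AM z V

/-- the Dirichlet form of the torus -/
def energy [NeZero M] (u : Tor d M → ℝ) : ℝ := ∑ x, ∑ i : Fin d, (u (x + ev i) - u x) ^ 2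

/-- `√t` for `d = 3`, `1 + log t` for `d = 4`, `1` otherwise -/
def growth (d : ℕ) (t : ℝ) : ℝ :=
  if d = 3 then Real.sqrt t else if d = 4 then 1 + Real.log t else 1

/-- the constant in the heat kernel bound -/
def KH (d : ℕ) : ℝ := 12 * (36 * (d : ℝ) ^ 3) ^ d

/-- the set of potentials with the bounds `m` for the landscape function, `B` for the row sums of
squares and `C1` for the diagonal of the Green function -/
def goodSet [NeZero M] (z m B C1 : ℝ) : Set (Tor d M → ℝ) :=
  {V | (AM z V).PosDef ∧ (∀ x, DD z V x ≤ m) ∧ (∀ x, ∑ y, (GM z V x y) ^ 2 ≤ B) ∧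
    ∀ x, GM z V x x ≤ C1}

/-- the landscape function is within two percent of `μ` -/
def Flat [NeZero M] (z μ : ℝ) (V : Tor d M → ℝ) : Prop :=
  (∀ x, -1 ≤ V x) ∧ (AM z V).PosDef ∧ ∀ x, |DD z V x - μ| ≤ μ / 50

/-- independent centred Gaussians of variance `v` on the torus -/
def gau (d M : ℕ) [NeZero M] (v : ℝ≥0) : Measure (Tor d M → ℝ) :=
  Measure.pi fun _ => gaussianReal 0 v

/-- translation -/
def tr (x : Tor d M) (V : Tor d M → ℝ) : Tor d M → ℝ := fun y => V (x + y)

/-- the representative of a point of the torus in the box `(-M/2, M/2]^d` -/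
def rep (x : Tor d M) : Site d := fun i => (x i).valMinAbs

/-- `u ∈ ℓ²(ℤ^d)` vanishes outside of `S` and solves `(Δ + W) u = E u` on `S`: `u` is an
eigenfunction, with the eigenvalue `E`, of the restriction of `Δ + W` to `S` (or `u = 0`) -/
def IsEigenOn (S : Set (Site d)) (W : Site d → ℝ) (E : ℝ) (u : L2 d) : Prop :=
  (∀ x, x ∉ S → u x = 0) ∧ ∀ x, x ∈ S → lap u x + (W x : ℂ) * u x = (E : ℂ) * u x

end Pool.Agent.BED
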