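import Pool.Agent.Helper54_BED.Induct

/-!
# BED, module FLAT, part 3: the edge is `2d + O(σ²)`
-/

set_option autoImplicit false

open MeasureTheory ProbabilityTheory

open scoped ENNReal NNReal BigOperators

noncomputable section

namespace Pool.Agent.BED

open Matrix

variable {d M : ℕ} [NeZero M]

theorem map_eval_gau (v : ℝ≥0) (x : Tor d M) :
    (gau d M v).map (fun V => V x) = gaussianReal 0 v :=
  (measurePreserving_eval (fun _ : Tor d M => gaussianReal 0 v) x).map_eq

theorem integrable_eval (v : ℝ≥0) (x : Tor d M) : Integrable (fun V : Tor d M → ℝ => V x) (gau d M v) := by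
  have h := (memLp_id_gaussianReal (μ := 0) (v := v) 1).integrable (by norm_num)
  rw [← map_eval_gau (d := d) (M := M) v x] at h
  exact h.comp_measurable (measurable_pi_apply x)

theorem integrable_eval_sq (v : ℝ≥0) (x : Tor d M) :
    Integrable (fun V : Tor d M → ℝ => V x ^ 2) (gau d M v) := by
  have h := (memLp_id_gaussianReal (μ := 0) (v := v) 2).integrable_sq
  rw [← map_eval_gau (d := d) (M := M) v x] at h
  exact h.comp_measurable (measurable_pi_apply x)

theorem integral_eval_sq (v : ℝ≥0) (x : Tor d M) :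
    ∫ V : Tor d M → ℝ, V x ^ 2 ∂(gau d M v) = v := by
  have h1 : ∫ V : Tor d M → ℝ, V x ^ 2 ∂(gau d M v) = ∫ s, s ^ 2 ∂(gaussianReal 0 v) := by
    have h6 := integral_map (μ := gau d M v) (measurable_pi_apply x).aemeasurable
      (f := fun s : ℝ => s ^ 2) (by fun_prop)
    rw [show (gau d M v).map (fun V : Tor d M → ℝ => V x) = gaussianReal 0 v from
      map_eval_gau v x] at h6
    exact h6.symm
  rw [h1]
  have h2 := variance_id_gaussianReal (μ := 0) (v := v)
  rw [variance_of_integral_eq_zero (by fun_prop) (by simp)] at h2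
  simpa using h2

/-- reflection of the coordinate at the origin -/
def flip0 (V : Tor d M → ℝ) : Tor d M → ℝ := fun x => if x = 0 then - V x else V x

theorem mp_flip0 (v : ℝ≥0) : MeasurePreserving (flip0 : (Tor d M → ℝ) → _) (gau d M v) (gau d M v) := by
  unfold gau
  have h := measurePreserving_pi (fun _ : Tor d M => gaussianReal 0 v)
    (fun _ : Tor d M => gaussianReal 0 v) (f := fun x s => if x = 0 then -s else s) (fun x => by
      by_cases hx : x = 0
      · simp only [hx, if_true]
        refine ⟨by fun_prop, ?_⟩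
        have := gaussianReal_map_neg (μ := 0) (v := v)
        simpa using this
      · simp only [hx, if_false]
        exact MeasurePreserving.id _)
  exact h

/-- Gaussian integration by parts, as an inequality -/
theorem ibp {v : ℝ≥0} {F : (Tor d M → ℝ) → ℝ} {K m : ℝ} (hm : 0 ≤ m) (hF0 : ∀ V, 0 ≤ F V)
    (hFm : ∀ V, F V ≤ m) (hFc : Continuous F)
    (hco : ∀ V W, (∀ x, x ≠ 0 → V x = W x) → |F V - F W| ≤ K * |V 0 - W 0|) :
    Integrable (fun V => V 0 * F V) (gau d M v) ∧ |∫ V, V 0 * F V ∂(gau d M v)| ≤ K * v := by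
  have hint : Integrable (fun V => V 0 * F V) (gau d M v) := by
    refine (integrable_eval v 0).mul_bdd (c := m) hFc.aestronglyMeasurable
      (Filter.Eventually.of_forall fun V => ?_)
    rw [Real.norm_eq_abs, abs_of_nonneg (hF0 V)]
    exact hFm V
  refine ⟨hint, ?_⟩
  have h1 : ∫ V, V 0 * F V ∂(gau d M v) = ∫ V, (flip0 V) 0 * F (flip0 V) ∂(gau d M v) := by
    have h := (mp_flip0 (d := d) (M := M) v)
    have h2 := integral_map (μ := gau d M v) h.measurable.aemeasurable
      (f := fun V : Tor d M → ℝ => V 0 * F V) (by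
        exact ((continuous_apply 0).mul hFc).aestronglyMeasurable)
    rw [h.map_eq] at h2
    exact h2
  have hint' : Integrable (fun V => (flip0 V) 0 * F (flip0 V)) (gau d M v) := by
    have h := (mp_flip0 (d := d) (M := M) v)
    exact (h.integrable_comp hint.aestronglyMeasurable).2 hint
  have h2 : 2 * ∫ V, V 0 * F V ∂(gau d M v) =
      ∫ V, (V 0 * F V + (flip0 V) 0 * F (flip0 V)) ∂(gau d M v) := by
    rw [integral_add hint hint', ← h1]; ring
  have h3 : |∫ V, (V 0 * F V + (flip0 V) 0 * F (flip0 V)) ∂(gau d M v)| ≤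
      ∫ V : Tor d M → ℝ, 2 * K * V 0 ^ 2 ∂(gau d M v) := by
    refine (abs_integral_le_integral_abs).trans (integral_mono_ae ?_ ?_ ?_)
    · exact (hint.add hint').abs
    · exact (integrable_eval_sq v 0).const_mul _
    · refine Filter.Eventually.of_forall fun V => ?_
      have e : (flip0 V) 0 = - V 0 := by simp [flip0]
      have h4 := hco V (flip0 V) (fun x hx => by simp [flip0, hx])
      rw [e] at h4
      simp only [e]
      have e2 : V 0 * F V + -V 0 * F (flip0 V) = V 0 * (F V - F (flip0 V)) := by ring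
      rw [e2, abs_mul]
      calc |V 0| * |F V - F (flip0 V)| ≤ |V 0| * (K * |V 0 - -V 0|) :=
            mul_le_mul_of_nonneg_left h4 (abs_nonneg _)
        _ = 2 * K * V 0 ^ 2 := by
            rw [show V 0 - -V 0 = 2 * V 0 by ring, abs_mul, abs_two, ← sq_abs (V 0)]; ring
  rw [← h2, integral_const_mul, integral_eval_sq, abs_mul, abs_two] at h3
  linarith

theorem sum_shift (f : Tor d M → ℝ) :
    ∑ x, ∑ i : Fin d, (f (x + ev i) + f (x - ev i)) = 2 * d * ∑ x, f x := by
  rw [Finset.sum_comm]
  have : ∀ i : Fin d, ∑ x : Tor d M, (f (x + ev i) + f (x - ev i)) = 2 * ∑ x, f x := by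
    intro i
    have h0 := Equiv.sum_comp (Equiv.addRight (ev i : Tor d M)) f
    have h := Equiv.sum_comp (Equiv.subRight (ev i : Tor d M)) f
    simp only [Equiv.subRight_apply, Equiv.coe_addRight] at h h0
    rw [Finset.sum_add_distrib, h, h0]; ring
  simp only [this, Finset.sum_const, Finset.card_univ, Fintype.card_fin, nsmul_eq_mul]
  ring

theorem sum_landscape {z : ℝ} {V : Tor d M → ℝ} (hA : (AM z V).PosDef) :
    ∑ x, (z - 2 * d - V x) * DD z V x = (M : ℝ) ^ d := by
  have h1 : ∑ x, (AM z V *ᵥ DD z V) x = (M : ℝ) ^ d := by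
    rw [AM_DD hA]
    simp [Finset.card_univ]
  rw [← h1]
  simp only [AM_mulVec, Finset.sum_sub_distrib]
  rw [sum_shift, Finset.mul_sum, ← Finset.sum_sub_distrib]
  refine Finset.sum_congr rfl fun x _ => ?_
  ring

theorem est (hCov : CovStmt) {C B z μ m p : ℝ} (hC : 1 ≤ C) (σ : ℝ≥0) (hσ : 0 < σ) (hσ1 : σ ≤ 1)
    {F : (Tor d M → ℝ) → ℝ} {U : Set (Tor d M → ℝ)}
    (hS : Stage (σ ^ 2) C B z μ m p F U) (hp : 0 < p) (hp2 : p ≤ 1 / 2) :
    |z - 2 * d| ≤ 4 * (C * (σ : ℝ) ^ 2 + 1 / μ + Real.sqrt p) := by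
  haveI := gau_isProb (d := d) (M := M) (σ ^ 2)
  have hM : (0:ℝ) < (M : ℝ) ^ d := by
    have : (0:ℝ) < M := by exact_mod_cast Nat.pos_of_ne_zero (NeZero.ne M)
    positivity
  have hμ := hS.μpos
  have hm := hS.mpos
  have hmμ := hS.mle
  have hσ' : (0:ℝ) < σ := hσ
  have hσ1' : (σ:ℝ) ≤ 1 := hσ1
  have hFc : Continuous F := continuous_of_lip (by positivity) hS.lip
  set g := gau d M (σ ^ 2) with hg
  set y : ℝ := |z - 2 * d| with hy
  have hy0 : 0 ≤ y := abs_nonneg _
  obtain ⟨hint, hibp⟩ := ibp (v := σ ^ 2) (K := m * C) hm.le hS.F0 hS.Fm hFc hS.coord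
  have hvv : ((σ ^ 2 : ℝ≥0) : ℝ) = (σ : ℝ) ^ 2 := by push_cast; rfl
  rw [hvv] at hibp
  -- the translated functions
  have hmp : ∀ x : Tor d M, MeasurePreserving (tr x) g g := fun x => (hCov d M z 0 x).2.2.2.2.2 _
  have htrc : ∀ x : Tor d M, Continuous (tr x : (Tor d M → ℝ) → _) := fun x =>
    continuous_pi fun y => continuous_apply _
  have hI1 : ∀ x : Tor d M, Integrable (fun V => F (tr x V)) g ∧ ∫ V, F (tr x V) ∂g = μ := by
    intro x
    have hi : Integrable F g := by
      refine Integrable.of_bound hFc.aestronglyMeasurable m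
        (Filter.Eventually.of_forall fun V => ?_)
      rw [Real.norm_eq_abs, abs_of_nonneg (hS.F0 V)]
      exact hS.Fm V
    refine ⟨((hmp x).integrable_comp hi.aestronglyMeasurable).2 hi, ?_⟩
    have h2 := integral_map (μ := g) (hmp x).measurable.aemeasurable
      (f := F) (hFc.aestronglyMeasurable)
    rw [(hmp x).map_eq] at h2
    rw [← h2]
    exact hS.int
  have hI2 : ∀ x : Tor d M, Integrable (fun V : Tor d M → ℝ => V x * F (tr x V)) g ∧
      ∫ V : Tor d M → ℝ, V x * F (tr x V) ∂g = ∫ V : Tor d M → ℝ, V 0 * F V ∂g := by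
    intro x
    have e : (fun V : Tor d M → ℝ => V x * F (tr x V)) =
        (fun V : Tor d M → ℝ => V 0 * F V) ∘ tr x := by
      funext V
      simp [tr]
    rw [e]
    refine ⟨((hmp x).integrable_comp hint.aestronglyMeasurable).2 hint, ?_⟩
    have h2 := integral_map (μ := g) (hmp x).measurable.aemeasurable
      (f := fun V : Tor d M → ℝ => V 0 * F V) (((continuous_apply 0).mul hFc).aestronglyMeasurable)
    rw [(hmp x).map_eq] at h2
    exact h2.symm
  set Z : (Tor d M → ℝ) → ℝ := fun V => ∑ x, (z - 2 * d - V x) * F (tr x V) with hZ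
  have hZi : ∀ x : Tor d M, Integrable (fun V : Tor d M → ℝ => (z - 2 * d - V x) * F (tr x V)) g := by
    intro x
    have : (fun V : Tor d M → ℝ => (z - 2 * d - V x) * F (tr x V)) =
        fun V => (z - 2 * d) * F (tr x V) - V x * F (tr x V) := by
      funext V; ring
    rw [this]
    exact ((hI1 x).1.const_mul _).sub (hI2 x).1
  have hZint : ∫ V, Z V ∂g = (M : ℝ) ^ d * ((z - 2 * d) * μ - ∫ V : Tor d M → ℝ, V 0 * F V ∂g) := by
    rw [hZ, integral_finsetSum _ (fun x _ => hZi x)]
    have : ∀ x : Tor d M, ∫ V : Tor d M → ℝ, (z - 2 * d - V x) * F (tr x V) ∂g =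
        (z - 2 * d) * μ - ∫ V : Tor d M → ℝ, V 0 * F V ∂g := by
      intro x
      rw [← (hI2 x).2, ← (hI1 x).2, ← integral_const_mul, ← integral_sub ((hI1 x).1.const_mul _)
        (hI2 x).1]
      refine integral_congr_ae (Filter.Eventually.of_forall fun V => ?_)
      simp only; ring
    simp only [this, Finset.sum_const, Finset.card_univ, Fintype.card_fun, ZMod.card,
      Fintype.card_fin, nsmul_eq_mul, Nat.cast_pow]
  -- the exceptional set
  set H := toMeasurable g Uᶜ with hH
  have hHm : MeasurableSet H := measurableSet_toMeasurable _ _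
  have hHp : g.real H ≤ p := by
    rw [Measure.real, measure_toMeasurable]
    exact ENNReal.toReal_le_of_le_ofReal hp.le hS.meas
  have hZU : ∀ V, V ∉ H → Z V = (M : ℝ) ^ d := by
    intro V hV
    have hVU : V ∈ U := by
      by_contra hc
      exact hV (subset_toMeasurable g _ hc)
    rw [hZ, ← sum_landscape (hS.flat V hVU).2.1]
    exact Finset.sum_congr rfl fun x _ => by rw [hS.eq V hVU x]
  -- the bound
  have hZi' : Integrable Z g := integrable_finsetSum _ fun x _ => hZi x
  have hbd : |∫ V, Z V ∂g - (M : ℝ) ^ d| ≤ (M : ℝ) ^ d * ((1 + y * m) * p + m * σ * Real.sqrt p) := by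
    have e1 : ∫ V, Z V ∂g - (M : ℝ) ^ d = ∫ V, (Z V - (M : ℝ) ^ d) ∂g := by
      rw [integral_sub hZi' (integrable_const _), integral_const]
      simp
    have e2 : ∫ V, (Z V - (M : ℝ) ^ d) ∂g = ∫ V in H, (Z V - (M : ℝ) ^ d) ∂g := by
      rw [setIntegral_eq_integral_of_forall_compl_eq_zero]
      intro V hV
      rw [hZU V hV, sub_self]
    rw [e1, e2]
    have hs : 0 < Real.sqrt p := Real.sqrt_pos.2 hp
    have hss : Real.sqrt p * Real.sqrt p = p := Real.mul_self_sqrt hp.le
    -- the dominating function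
    set D : (Tor d M → ℝ) → ℝ := fun V => (M : ℝ) ^ d * (1 + y * m + m * (σ / (2 * Real.sqrt p))) +
      ∑ x, m * (Real.sqrt p / (2 * σ)) * V x ^ 2 with hD
    have hDi : Integrable D g := by
      refine (integrable_const _).add (integrable_finsetSum _ fun x _ => ?_)
      exact (integrable_eval_sq _ x).const_mul _
    have hdom : ∀ V, |Z V - (M : ℝ) ^ d| ≤ D V := by
      intro V
      have h1 : |Z V| ≤ ∑ x, (y + |V x|) * m := by
        rw [hZ]
        refine (Finset.abs_sum_le_sum_abs _ _).trans (Finset.sum_le_sum fun x _ => ?_)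
        rw [abs_mul, abs_of_nonneg (hS.F0 _)]
        refine mul_le_mul ?_ (hS.Fm _) (hS.F0 _) (by positivity)
        exact abs_sub _ _
      have h2 : ∀ x : Tor d M, |V x| ≤ σ / (2 * Real.sqrt p) + Real.sqrt p / (2 * σ) * V x ^ 2 := by
        intro x
        have h3 : 0 ≤ (Real.sqrt p * |V x| - σ) ^ 2 := sq_nonneg _
        have h4 : σ / (2 * Real.sqrt p) + Real.sqrt p / (2 * σ) * V x ^ 2 - |V x| =
            (Real.sqrt p * |V x| - σ) ^ 2 / (2 * Real.sqrt p * σ) := by
          rw [← sq_abs (V x)]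
          field_simp
          ring
        have h5 : 0 ≤ (Real.sqrt p * |V x| - σ) ^ 2 / (2 * Real.sqrt p * σ) := by positivity
        linarith
      have h3 : ∑ x : Tor d M, (y + |V x|) * m ≤
          (M : ℝ) ^ d * (y * m + m * (σ / (2 * Real.sqrt p))) +
            ∑ x, m * (Real.sqrt p / (2 * σ)) * V x ^ 2 := by
        have h4 : ∑ x : Tor d M, (y + |V x|) * m ≤
            ∑ x : Tor d M, ((y * m + m * (σ / (2 * Real.sqrt p))) +
              m * (Real.sqrt p / (2 * σ)) * V x ^ 2) := by
          refine Finset.sum_le_sum fun x _ => ?_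
          have := h2 x
          nlinarith
        refine h4.trans (le_of_eq ?_)
        rw [Finset.sum_add_distrib]
        congr 1
        simp only [Finset.sum_const, Finset.card_univ, Fintype.card_fun, ZMod.card,
          Fintype.card_fin, nsmul_eq_mul, Nat.cast_pow]
      calc |Z V - (M : ℝ) ^ d| ≤ |Z V| + |(M : ℝ) ^ d| := abs_sub _ _
        _ ≤ _ := by
            rw [abs_of_pos hM, hD]
            simp only
            have := h1.trans h3
            nlinarith
    calc |∫ V in H, (Z V - (M : ℝ) ^ d) ∂g| ≤ ∫ V in H, |Z V - (M : ℝ) ^ d| ∂g :=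
          abs_integral_le_integral_abs
      _ ≤ ∫ V in H, D V ∂g := by
          refine setIntegral_mono ?_ hDi.integrableOn hdom
          exact ((hZi'.sub (integrable_const _)).abs).integrableOn
      _ = (M : ℝ) ^ d * (1 + y * m + m * (σ / (2 * Real.sqrt p))) * g.real H +
            ∑ x : Tor d M, m * (Real.sqrt p / (2 * σ)) * ∫ V in H, V x ^ 2 ∂g := by
          rw [hD, integral_add (integrable_const _) (integrable_finsetSum _ fun x _ =>
            ((integrable_eval_sq _ x).const_mul _).integrableOn), integral_const,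
            integral_finsetSum _ (fun x _ => ((integrable_eval_sq _ x).const_mul _).integrableOn)]
          congr 1
          · rw [measureReal_restrict_apply_univ, smul_eq_mul, mul_comm]
          · refine Finset.sum_congr rfl fun x _ => ?_
            rw [integral_const_mul]
      _ ≤ (M : ℝ) ^ d * (1 + y * m + m * (σ / (2 * Real.sqrt p))) * p +
            ∑ _x : Tor d M, m * (Real.sqrt p / (2 * σ)) * (σ : ℝ) ^ 2 := by
          refine add_le_add (mul_le_mul_of_nonneg_left hHp (by positivity))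
            (Finset.sum_le_sum fun x _ => mul_le_mul_of_nonneg_left ?_ (by positivity))
          rw [← hvv, ← integral_eval_sq (d := d) (M := M) (σ ^ 2) x]
          exact setIntegral_le_integral (integrable_eval_sq _ x)
            (Filter.Eventually.of_forall fun V => sq_nonneg _)
      _ = (M : ℝ) ^ d * ((1 + y * m) * p + m * σ * Real.sqrt p) := by
          simp only [Finset.sum_const, Finset.card_univ, Fintype.card_fun, ZMod.card,
            Fintype.card_fin, nsmul_eq_mul, Nat.cast_pow]
          have h5 : m * (σ / (2 * Real.sqrt p)) * p = m * σ * Real.sqrt p / 2 := by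
            calc m * (σ / (2 * Real.sqrt p)) * p =
                  m * (σ / (2 * Real.sqrt p)) * (Real.sqrt p * Real.sqrt p) := by rw [hss]
              _ = _ := by field_simp
          have h6 : m * (Real.sqrt p / (2 * σ)) * (σ : ℝ) ^ 2 = m * σ * Real.sqrt p / 2 := by
            field_simp
          rw [h6]
          have : (M : ℝ) ^ d * (1 + y * m + m * (σ / (2 * Real.sqrt p))) * p =
              (M : ℝ) ^ d * ((1 + y * m) * p + m * (σ / (2 * Real.sqrt p)) * p) := by ring
          rw [this, h5]; ring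
  rw [hZint] at hbd
  have hbd2 : |(z - 2 * d) * μ - ∫ V : Tor d M → ℝ, V 0 * F V ∂g - 1| ≤
      (1 + y * m) * p + m * σ * Real.sqrt p := by
    have e : (M : ℝ) ^ d * ((z - 2 * d) * μ - ∫ V : Tor d M → ℝ, V 0 * F V ∂g) - (M : ℝ) ^ d =
        (M : ℝ) ^ d * ((z - 2 * d) * μ - ∫ V : Tor d M → ℝ, V 0 * F V ∂g - 1) := by ring
    rw [e, abs_mul, abs_of_pos hM] at hbd
    exact le_of_mul_le_mul_left hbd hM
  have h7 : y * μ ≤ m * C * σ ^ 2 + 1 + ((1 + y * m) * p + m * σ * Real.sqrt p) := by
    have h8 : y * μ = |(z - 2 * d) * μ| := by rw [abs_mul, abs_of_pos hμ]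
    rw [h8]
    have h9 := abs_add_le ((z - 2 * d) * μ - ∫ V : Tor d M → ℝ, V 0 * F V ∂g - 1)
      (∫ V : Tor d M → ℝ, V 0 * F V ∂g + 1)
    have h10 := abs_add_le (∫ V : Tor d M → ℝ, V 0 * F V ∂g) 1
    rw [abs_one] at h10
    have e : (z - 2 * d) * μ - ∫ V : Tor d M → ℝ, V 0 * F V ∂g - 1 +
        (∫ V : Tor d M → ℝ, V 0 * F V ∂g + 1) = (z - 2 * d) * μ := by ring
    rw [e] at h9
    linarith
  have hs0 : 0 ≤ Real.sqrt p := Real.sqrt_nonneg _
  have h8 : y * m * p ≤ 0.55 * (y * μ) := by
    have h81 : y * m ≤ y * (1.1 * μ) := mul_le_mul_of_nonneg_left hmμ hy0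
    have h82 : y * m * p ≤ y * m * (1 / 2) := mul_le_mul_of_nonneg_left hp2 (by positivity)
    linarith
  have h9 : m * C * σ ^ 2 ≤ 1.1 * μ * (C * σ ^ 2) := by
    have : 0 ≤ C * (σ : ℝ) ^ 2 := by positivity
    nlinarith
  have h10 : m * σ * Real.sqrt p ≤ 1.1 * μ * Real.sqrt p := by
    have : m * σ ≤ 1.1 * μ := by nlinarith
    nlinarith
  have h11 : 0.45 * (y * μ) ≤ 1.1 * μ * (C * σ ^ 2) + 1.5 + 1.1 * μ * Real.sqrt p := by nlinarith
  have h12 : y * μ ≤ (4 * (C * (σ : ℝ) ^ 2 + 1 / μ + Real.sqrt p)) * μ := by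
    have : 4 * (C * (σ : ℝ) ^ 2 + 1 / μ + Real.sqrt p) * μ =
        4 * (μ * (C * σ ^ 2)) + 4 + 4 * (μ * Real.sqrt p) := by field_simp
    rw [this]
    have h13 : 0 ≤ μ * (C * (σ : ℝ) ^ 2) := by positivity
    have h14 : 0 ≤ μ * Real.sqrt p := by positivity
    nlinarith
  exact le_of_mul_le_mul_right h12 hμ

end Pool.Agent.BED
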