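import Pool.Agent.Helper54_BED.All

/-!
# MP_1906c1_mp: near the band edge all states are extended, up to exponentially large scales

For the Anderson Hamiltonian `H_σ = Δ + σ ξ` on `ℤ^d`, `d ≥ 3`, with independent standard Gaussian
`ξ(x)`, at weak disorder: there is an effective band edge `Es` near `2d` such that outside an event
of probability at most `1 / R` the following holds for all `lam` in `[1/t, 1]`: every combination
`v` of eigenfunctions with energies `|E| ≥ Es - lam` (of `H_σ` on `ℤ^d` or restricted to an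
arbitrary set of sites) satisfies `|v(x)|² ≤ C lam^(d/2) ‖v‖²` for all sites `x` in the ball of
radius `R`, although boxes in that ball do have the number `lam^(d/2) |Λ|` of eigenvalues in
`[Es - lam, Es)` which is the order of magnitude for `σ = 0`, and none of size `Es` or more.

Here `t ≤ R` are restricted only by `σ² growth(d, t) log R ≤ c`, `growth = √t, 1 + log t, 1` for
`d = 3`, `d = 4`, `d ≥ 5`. In dimensions `d ≥ 5` one can take `t = R = exp(c'/σ²)`.

The proof: the landscape function `(z - σ ξ - Δ)⁻¹ 1` on a torus is shown to be constant, up to two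
percent, by induction on the distance of `z` to the edge (Gaussian concentration for a Lipschitz
extension of the landscape function, and Nash's inequality for the Green function, whose constants
depend only on the flatness of the landscape function); a flat landscape function gives heat kernel
bounds for `z - σ ξ - Δ`, hence the sup bound for spectral subspaces, and the absence of
eigenvalues above `z`.
-/

set_option autoImplicit false

open MeasureTheory ProbabilityTheory

open scoped ENNReal

namespace Pool.Agent.BED.Handin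

open Pool.Agent.Anderson Pool.Agent.Loc Pool.Agent.BED

universe u

/-- Let `d ≥ 3` and let `ξ(y)`, `y ∈ ℤ^d`, be independent standard Gaussians, `H_σ = Δ + σ ξ`. There
are `c, C > 0` such that for all `σ ≠ 0` and all `2 ≤ t ≤ R` with `σ² growth(d, t) log R ≤ c`
(`growth(d, t) = √t` for `d = 3`, `1 + log t` for `d = 4`, `1` for `d ≥ 5`) there is a non-random
`Es` with `|Es - 2d| ≤ C (σ² + 1/t)` and an event `G` with `P(Gᶜ) ≤ 1/R` on which:

* for `1/t ≤ lam ≤ 1` and every set `S` of sites, every finite combination `v = ∑_{E ∈ J} u_E` of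
  eigenfunctions `u_E ∈ ℓ²` of the restriction of `H_σ` to `S` with eigenvalues `|E| ≥ Es - lam`
  satisfies `|v(x)|² ≤ C lam^(d/2) ‖v‖²` for all `|x|_∞ ≤ R`;
* in every box contained in `|x|_∞ ≤ R` all eigenvalues of the restriction of `H_σ` are less than
  `Es` in absolute value, and if the radius `L` of the box satisfies `lam L² ≥ C`, at least
  `C⁻¹ lam^(d/2) (2L+1)^d` of them are `≥ Es - lam`, for `1/t ≤ lam ≤ 1`. -/
theorem result (d : ℕ) (hd : 3 ≤ d) :
    ∃ c C : ℝ, 0 < c ∧ 0 < C ∧ ∀ σ : ℝ, σ ≠ 0 → ∀ t R : ℝ, 2 ≤ t → t ≤ R →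
      σ ^ 2 * growth d t * Real.log R ≤ c →
      ∃ Es : ℝ, |Es - 2 * d| ≤ C * (σ ^ 2 + 1 / t) ∧
        ∀ (Ω : Type u) [MeasurableSpace Ω] (P : Measure Ω) [IsProbabilityMeasure P]
          (ξ : Site d → Ω → ℝ), (∀ y, Measurable (ξ y)) →
          (∀ y, P.map (ξ y) = gaussianReal 0 1) → iIndepFun ξ P →
          ∃ G : Set Ω, MeasurableSet G ∧ P Gᶜ ≤ ENNReal.ofReal (1 / R) ∧ ∀ ω ∈ G,
            (∀ lam : ℝ, 1 / t ≤ lam → lam ≤ 1 →
              ∀ (S : Set (Site d)) (J : Finset ℝ) (u : ℝ → L2 d), (∀ E ∈ J, Es - lam ≤ |E|) →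
                (∀ E ∈ J, IsEigenOn S (fun y => σ * ξ y ω) E (u E)) →
                ∀ x : Site d, (∀ i, |(x i : ℝ)| ≤ R) →
                  ‖(∑ E ∈ J, u E : L2 d) x‖ ^ 2 ≤
                    C * lam ^ ((d : ℝ) / 2) * ‖(∑ E ∈ J, u E : L2 d)‖ ^ 2) ∧
            ∀ (x₀ : Site d) (L : ℕ), (∀ i, |(x₀ i : ℝ)| + L ≤ R) →
              ∀ hH : (HM (fun y => σ * ξ y ω) (box x₀ L)).IsHermitian,
                (∀ i, |hH.eigenvalues i| < Es) ∧
                ∀ lam : ℝ, 1 / t ≤ lam → lam ≤ 1 → C ≤ lam * (L : ℝ) ^ 2 →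
                  lam ^ ((d : ℝ) / 2) * (2 * (L : ℝ) + 1) ^ d ≤
                    C * ((Finset.univ.filter fun i => Es - lam ≤ hH.eigenvalues i).card : ℝ) :=
  main_of flatAll transAll H61.orth countAll H73.edge H73.lawT d hd

end Pool.Agent.BED.Handin
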