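import Pool.Agent.Helper54_BED.Next

/-!
# BED, module FLAT, part 2: the induction
-/

set_option autoImplicit false

open MeasureTheory ProbabilityTheory

open scoped ENNReal NNReal BigOperators

noncomputable section

namespace Pool.Agent.BED

open Matrix

variable {d M : ℕ} [NeZero M]

theorem sum_eval_le (f : Tor d M → ℝ) (x : Tor d M) : |f x| ≤ Real.sqrt (∑ y, f y ^ 2) := by
  rw [← Real.sqrt_sq_eq_abs]
  exact Real.sqrt_le_sqrt (Finset.single_le_sum (f := fun y => f y ^ 2)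
    (fun y _ => sq_nonneg (f y)) (Finset.mem_univ x))

/-- the tail of one coordinate -/
theorem coord_tail (hGC : GCStmt) {C B : ℝ} (hC : 1 ≤ C) (v : ℝ≥0) (x : Tor d M) :
    gau d M v {V | 1 / 100 ≤ |V x|} ≤ ENNReal.ofReal (qq C B v) := by
  have h1 := hGC (Tor d M) v (fun V => V x) 1 one_pos (fun V W => by
    rw [one_mul]
    exact sum_eval_le (fun y => V y - W y) x) (1 / 100) (by norm_num)
  have h2 : ∫ V : Tor d M → ℝ, V x ∂(Measure.pi fun _ : Tor d M => gaussianReal 0 v) = 0 := by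
    have h3 := (measurePreserving_eval (fun _ : Tor d M => gaussianReal 0 v) x)
    have h5 : ∫ V : Tor d M → ℝ, V x ∂(Measure.pi fun _ : Tor d M => gaussianReal 0 v) =
        ∫ s, s ∂(gaussianReal 0 v) := by
      have h6 := integral_map (μ := Measure.pi fun _ : Tor d M => gaussianReal 0 v)
        h3.measurable.aemeasurable (f := fun s : ℝ => s) (by fun_prop)
      rw [h3.map_eq] at h6
      exact h6.symm
    rw [h5, integral_id_gaussianReal]
  simp only [h2, sub_zero] at h1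
  refine (show gau d M v {V | 1 / 100 ≤ |V x|} ≤ _ from h1).trans ?_
  refine ENNReal.ofReal_le_ofReal ?_
  unfold qq
  refine mul_le_mul_of_nonneg_left (Real.exp_le_exp.2 ?_) (by norm_num)
  by_cases hv : (v : ℝ) = 0
  · simp [hv]
  · have hv0 : 0 < (v : ℝ) := lt_of_le_of_ne v.2 (Ne.symm hv)
    have hs := Real.sqrt_nonneg B
    have h6 : 1 ≤ (C + Real.sqrt B) ^ 2 := by nlinarith
    rw [neg_div, neg_div, neg_le_neg_iff, div_le_div_iff₀ (by positivity) (by positivity)]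
    nlinarith

/-- the base of the induction -/
theorem base (hGC : GCStmt) (hMcs : McsStmt) (hCov : CovStmt) {C t : ℝ} (hC : 1 ≤ C)
    (hgr : 0 ≤ growth d t) (ht : 1 ≤ t)
    (hSum : ∀ (z a : ℝ) (V : Tor d M → ℝ), z ≤ 2 * d + 1 → (∀ x, -1 ≤ V x) → (AM z V).PosDef →
      1 / 2 ≤ a → a ≤ 15 * t → (∀ x, a ≤ DD z V x) → (∀ x, DD z V x ≤ 3 / 2 * a) →
      ∀ x, ∑ y, (GM z V x y) ^ 2 ≤ C * growth d t ∧ GM z V x x ≤ C)
    {v : ℝ≥0} (hlt : 2 * ((M : ℝ) ^ d * qq C (C * growth d t) v) < 1) :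
    ∃ (z μ m : ℝ) (F : (Tor d M → ℝ) → ℝ) (U : Set (Tor d M → ℝ)), 0.98 ≤ μ ∧ μ ≤ 1.03 ∧
      Stage v C (C * growth d t) z μ m (2 * ((M : ℝ) ^ d * qq C (C * growth d t) v)) F U := by
  set q : ℝ := (M : ℝ) ^ d * qq C (C * growth d t) v with hq
  have hq0 : 0 < q := by
    have := qq_pos C (C * growth d t) v
    have : (0:ℝ) < M := by exact_mod_cast Nat.pos_of_ne_zero (NeZero.ne M)
    positivity
  set U₀ : Set (Tor d M → ℝ) := {V | ∀ x, |V x| < 1 / 100} with hU₀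
  have hU₀c : U₀ᶜ = ∅ ∪ ⋃ x, {V : Tor d M → ℝ | 1 / 100 ≤ |V x|} := by
    ext V
    simp [hU₀]
  have hmeas : gau d M v U₀ᶜ ≤ ENNReal.ofReal q := by
    rw [hU₀c]
    have := gau_union (v := v) (A := ∅) (S := fun x => {V : Tor d M → ℝ | 1 / 100 ≤ |V x|})
      (a := 0) (q := qq C (C * growth d t) v) le_rfl (qq_pos _ _ _).le (by simp)
      (fun x => coord_tail hGC hC v x)
    simpa [hq] using this
  have hU : ∀ V ∈ U₀, (∀ x, -1 ≤ V x) ∧ (AM (2 * (d : ℝ) + 1) V).PosDef ∧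
      ∀ x, 0.99 ≤ DD (2 * (d : ℝ) + 1) V x ∧ DD (2 * (d : ℝ) + 1) V x ≤ 1.02 := by
    intro V hV
    have hV' : ∀ x, -(1 / 100) < V x ∧ V x < 1 / 100 := fun x => abs_lt.1 (hV x)
    have hA : ∀ (c : ℝ) (x : Tor d M), (AM (2 * (d : ℝ) + 1) V *ᵥ fun _ => c) x =
        c * (1 - V x) := by
      intro c x
      rw [AM_mulVec]
      simp
      ring
    have hpd : (AM (2 * (d : ℝ) + 1) V).PosDef :=
      AM_posDef_of_super (g := fun _ => 1) (fun _ => one_pos) (fun x => by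
        rw [hA]; linarith [(hV' x).2])
    have hD := AM_DD hpd
    refine ⟨fun x => by linarith [(hV' x).1], hpd, fun x => ⟨?_, ?_⟩⟩
    · have := AM_le_of hpd (u := fun _ => 0.99) (v := DD (2 * (d : ℝ) + 1) V) (fun y => by
        rw [hA, hD, Pi.one_apply]; linarith [(hV' y).1]) x
      simpa using this
    · have := AM_le_of hpd (u := DD (2 * (d : ℝ) + 1) V) (v := fun _ => 1.02) (fun y => by
        rw [hA, hD, Pi.one_apply]; linarith [(hV' y).2]) x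
      simpa using this
  obtain ⟨F, μ, U, -, h1, h2, h3⟩ := next hGC hMcs hCov hC hgr hSum (U₀ := U₀) (p := q)
    (z := 2 * (d : ℝ) + 1) (α := 0.99) (m := 1.02) le_rfl (by norm_num) (by linarith)
    (by norm_num) (by norm_num) hU hq0.le hmeas (by linarith)
  have e : 2 * q = q + (M : ℝ) ^ d * qq C (C * growth d t) v := by rw [← hq]; ring
  refine ⟨2 * (d : ℝ) + 1, μ, 1.02, F, U, by linarith, by linarith, ?_⟩
  rw [e]; exact h3

/-- one step of the induction -/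
theorem step (hGC : GCStmt) (hMcs : McsStmt) (hCov : CovStmt) (hStep : StepStmt) {C t : ℝ}
    (hC : 1 ≤ C) (hgr : 0 ≤ growth d t)
    (hSum : ∀ (z a : ℝ) (V : Tor d M → ℝ), z ≤ 2 * d + 1 → (∀ x, -1 ≤ V x) → (AM z V).PosDef →
      1 / 2 ≤ a → a ≤ 15 * t → (∀ x, a ≤ DD z V x) → (∀ x, DD z V x ≤ 3 / 2 * a) →
      ∀ x, ∑ y, (GM z V x y) ^ 2 ≤ C * growth d t ∧ GM z V x x ≤ C)
    {v : ℝ≥0} {z μ m p : ℝ} {F : (Tor d M → ℝ) → ℝ} {U : Set (Tor d M → ℝ)} (hp : 0 ≤ p)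
    (hμ : 1 / 2 ≤ μ) (hμt : μ ≤ 12 * t)
    (hS : Stage v C (C * growth d t) z μ m p F U)
    (hlt : p + (M : ℝ) ^ d * qq C (C * growth d t) v < 1) :
    ∃ (z' μ' m' : ℝ) (F' : (Tor d M → ℝ) → ℝ) (U' : Set (Tor d M → ℝ)),
      1.07 * μ ≤ μ' ∧ μ' ≤ 1.15 * μ ∧
      Stage v C (C * growth d t) z' μ' m' (p + (M : ℝ) ^ d * qq C (C * growth d t) v) F' U' := by
  have hμ0 := hS.μpos
  have hU : ∀ V ∈ U, (∀ x, -1 ≤ V x) ∧ (AM (z - 1 / (10 * μ)) V).PosDef ∧
      ∀ x, 1.08 * μ ≤ DD (z - 1 / (10 * μ)) V x ∧ DD (z - 1 / (10 * μ)) V x ≤ 1.14 * μ := by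
    intro V hV
    obtain ⟨h1, h2, h3⟩ := hS.flat V hV
    obtain ⟨h4, h5⟩ := hStep d M z μ V hμ0 h2 h3
    exact ⟨h1, h4, h5⟩
  have hz : z - 1 / (10 * μ) ≤ 2 * d + 1 := by
    have := hS.zle
    have : 0 < 1 / (10 * μ) := by positivity
    linarith
  obtain ⟨F', μ', U', -, h1, h2, h3⟩ := next hGC hMcs hCov hC hgr hSum (U₀ := U) (p := p)
    (z := z - 1 / (10 * μ)) (α := 1.08 * μ) (m := 1.14 * μ) hz (by linarith) (by linarith)
    (by linarith) (by linarith) hU hp hS.meas hlt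
  exact ⟨_, μ', _, F', U', by linarith, by linarith, h3⟩

/-- the induction -/
theorem induct (hGC : GCStmt) (hMcs : McsStmt) (hCov : CovStmt) (hStep : StepStmt) {C t : ℝ}
    (hC : 1 ≤ C) (hgr : 0 ≤ growth d t) (ht : 1 ≤ t)
    (hSum : ∀ (z a : ℝ) (V : Tor d M → ℝ), z ≤ 2 * d + 1 → (∀ x, -1 ≤ V x) → (AM z V).PosDef →
      1 / 2 ≤ a → a ≤ 15 * t → (∀ x, a ≤ DD z V x) → (∀ x, DD z V x ≤ 3 / 2 * a) →
      ∀ x, ∑ y, (GM z V x y) ^ 2 ≤ C * growth d t ∧ GM z V x x ≤ C)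
    {v : ℝ≥0} (k : ℕ) (hlt : (k + 2 : ℝ) * ((M : ℝ) ^ d * qq C (C * growth d t) v) < 1) :
    ∃ (z μ m : ℝ) (F : (Tor d M → ℝ) → ℝ) (U : Set (Tor d M → ℝ)),
      Stage v C (C * growth d t) z μ m ((k + 2 : ℝ) * ((M : ℝ) ^ d * qq C (C * growth d t) v)) F U ∧
      ((10 * t ≤ μ ∧ μ ≤ 12 * t) ∨ (μ < 10 * t ∧ 0.98 * 1.07 ^ k ≤ μ)) := by
  have hq0 : 0 < (M : ℝ) ^ d * qq C (C * growth d t) v := by
    have := qq_pos C (C * growth d t) v
    have : (0:ℝ) < M := by exact_mod_cast Nat.pos_of_ne_zero (NeZero.ne M)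
    positivity
  induction k with
  | zero =>
    simp only [Nat.cast_zero, zero_add] at hlt ⊢
    obtain ⟨z, μ, m, F, U, h1, h2, h3⟩ := base hGC hMcs hCov hC hgr ht hSum (v := v) hlt
    exact ⟨z, μ, m, F, U, h3, Or.inr ⟨by linarith, by simpa using h1⟩⟩
  | succ k ih =>
    have hlt' : (k + 2 : ℝ) * ((M : ℝ) ^ d * qq C (C * growth d t) v) < 1 := by
      push_cast at hlt
      nlinarith
    obtain ⟨z, μ, m, F, U, h1, h2⟩ := ih hlt'
    rcases h2 with h2 | ⟨h2, h3⟩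
    · refine ⟨z, μ, m, F, U, ?_, Or.inl h2⟩
      refine { h1 with meas := h1.meas.trans (ENNReal.ofReal_le_ofReal ?_) }
      push_cast
      nlinarith
    · have h4 : (1:ℝ) ≤ 1.07 ^ k := one_le_pow₀ (by norm_num)
      obtain ⟨z', μ', m', F', U', h5, h6, h7⟩ := step hGC hMcs hCov hStep hC hgr hSum (by positivity)
        (by linarith) (by linarith) h1 (by push_cast at hlt; linarith)
      refine ⟨z', μ', m', F', U', ?_, ?_⟩
      · have e : ((k + 1 : ℕ) + 2 : ℝ) * ((M : ℝ) ^ d * qq C (C * growth d t) v) =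
            (k + 2 : ℝ) * ((M : ℝ) ^ d * qq C (C * growth d t) v) +
              (M : ℝ) ^ d * qq C (C * growth d t) v := by push_cast; ring
        rw [e]; exact h7
      · by_cases h8 : 10 * t ≤ μ'
        · exact Or.inl ⟨h8, by linarith⟩
        · refine Or.inr ⟨not_le.1 h8, ?_⟩
          rw [pow_succ]
          linarith

end Pool.Agent.BED
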